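import Pool.Agent.L0h29.BL.Man

/-!
# Project BL: the derivative and the Lipschitz condition in charts
-/

set_option autoImplicit false

open Set Filter Topology Metric Function
open scoped Manifold ContDiff

noncomputable section

namespace Pool.Agent.L0h29.BL

open Pool.Agent.Y522

variable {M N : Type} [TopologicalSpace M] [ChartedSpace (E 4) M] [TopologicalSpace N]
  [ChartedSpace (E 4) N]

theorem NiceM.deriv {f : M → N} {x : M} (h : NiceM f x) (hc : ContinuousAt f x) :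
    MDifferentiableAt (𝓡 4) (𝓡 4) f x ∧ Bijective (mfderiv (𝓡 4) (𝓡 4) f x) := by
  obtain ⟨⟨A, hA⟩, -⟩ := h
  have h1 : HasMFDerivAt (𝓡 4) (𝓡 4) f x (A : E 4 →L[ℝ] E 4) := by
    refine ⟨hc, ?_⟩
    have h2 : writtenInExtChartAt (𝓡 4) (𝓡 4) x f =
        fun y => chartAt (E 4) (f x) (f ((chartAt (E 4) x).symm y)) := by
      ext y
      simp [writtenInExtChartAt, extChartAt]
    have h3 : range (𝓡 4) = univ := by simp
    rw [h2, h3]
    exact hA.hasFDerivWithinAt
  refine ⟨h1.mdifferentiableAt, ?_⟩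
  rw [h1.mfderiv]
  exact A.bijective

theorem NiceM.lip {f : M → N} {x : M} (h : NiceM f x) : ∃ C : ℝ, ∀ᶠ p : M × M in 𝓝 (x, x),
    ‖chartAt (E 4) (f x) (f p.1) - chartAt (E 4) (f x) (f p.2)‖ ≤
        C * ‖chartAt (E 4) x p.1 - chartAt (E 4) x p.2‖ ∧
      ‖chartAt (E 4) x p.1 - chartAt (E 4) x p.2‖ ≤
        C * ‖chartAt (E 4) (f x) (f p.1) - chartAt (E 4) (f x) (f p.2)‖ := by
  obtain ⟨-, C, U, hU, hC⟩ := h
  refine ⟨C, ?_⟩
  have h1 : ContinuousAt (chartAt (E 4) x) x :=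
    (chartAt (E 4) x).continuousAt (mem_chart_source (E 4) x)
  have h2 : (chartAt (E 4) x).source ∩ chartAt (E 4) x ⁻¹' U ∈ 𝓝 x :=
    inter_mem ((chartAt (E 4) x).open_source.mem_nhds (mem_chart_source (E 4) x)) (h1 hU)
  filter_upwards [prod_mem_nhds h2 h2] with p hp
  have h3 := hC _ hp.1.2 _ hp.2.2
  simp only [] at h3
  rw [(chartAt (E 4) x).left_inv hp.1.1, (chartAt (E 4) x).left_inv hp.2.1] at h3
  exact h3

end Pool.Agent.L0h29.BL
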