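import Pool.Agent.L0h29.BL.Swin2
import Pool.Agent.N550.KH.Shift
import Pool.Agent.N550.KH.End

/-!
# Project BL: homogeneity, and the normal form
-/

set_option autoImplicit false

open Set Filter Topology Metric Function
open scoped Manifold ContDiff

noncomputable section

namespace Pool.Agent.L0h29.BL

open Pool.Agent.Y522 Pool.Agent.N550.KH Pool.Agent.L0h29.CS.Sqz Pool.Agent.N550.SH.Moeb
  Pool.Agent.N550.KH.End

/-- `y` is the image of `x` under a diffeomorphism with compact support in `U` -/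
def Mv (U : Set (E 4)) (x y : E 4) : Prop :=
  ∃ K : E 4 ≃ₜ E 4, Dff K ∧ K x = y ∧ ∃ L : Set (E 4), IsCompact L ∧ L ⊆ U ∧ ∀ z, z ∉ L → K z = z

theorem Mv.symm' {U : Set (E 4)} {x y : E 4} (h : Mv U x y) : Mv U y x := by
  obtain ⟨K, hK, hxy, L, hL, hLU, hout⟩ := h
  refine ⟨K.symm, hK.symm, ?_, L, hL, hLU, fun z hz => ?_⟩
  · rw [Homeomorph.symm_apply_eq, hxy]
  · rw [Homeomorph.symm_apply_eq, hout z hz]

theorem Mv.trans' {U : Set (E 4)} {x y w : E 4} (h : Mv U x y) (h' : Mv U y w) : Mv U x w := by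
  obtain ⟨K, hK, hxy, L, hL, hLU, hout⟩ := h
  obtain ⟨K', hK', hxy', L', hL', hLU', hout'⟩ := h'
  refine ⟨K.trans K', hK.trans hK', ?_, L ∪ L', hL.union hL', union_subset hLU hLU',
    fun z hz => ?_⟩
  · rw [Homeomorph.trans_apply, hxy, hxy']
  · rw [mem_union, not_or] at hz
    rw [Homeomorph.trans_apply, hout z hz.1, hout' z hz.2]

/-- small moves -/
theorem mv_small {U : Set (E 4)} (hU : IsOpen U) {x : E 4} (hx : x ∈ U) :
    ∀ᶠ y in 𝓝 x, Mv U x y := by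
  obtain ⟨r, hr, hrU⟩ := Metric.nhds_basis_closedBall.mem_iff.1 (hU.mem_nhds hx)
  let χ : ContDiffBump x := ⟨r / 2, r, by positivity, by linarith⟩
  have hχs : ContDiff ℝ ∞ (χ : E 4 → ℝ) := χ.contDiff
  obtain ⟨C, hC⟩ : ∃ C : NNReal, LipschitzWith C (χ : E 4 → ℝ) :=
    ContDiff.lipschitzWith_of_hasCompactSupport χ.hasCompactSupport (χ.contDiff (n := ⊤)) (by simp)
  have hδ : 0 < 1 / (2 * ((C : ℝ) + 1)) := by positivity
  filter_upwards [ball_mem_nhds x hδ] with y hy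
  rw [mem_ball, dist_eq_norm] at hy
  have hdf : IsDf 4 (fun z => z + χ z • (y - x)) := by
    refine Shift.main.1 4 χ (y - x) (1 / 2) hχs (by norm_num) (fun z => ?_)
    have h1 : ‖fderiv ℝ (χ : E 4 → ℝ) z‖ ≤ C := norm_fderiv_le_of_lipschitz ℝ hC
    have h2 : (0 : ℝ) ≤ C := C.2
    have h3 : ‖y - x‖ * (2 * ((C : ℝ) + 1)) < 1 := by
      rwa [lt_div_iff₀ (by positivity)] at hy
    nlinarith [norm_nonneg (y - x), norm_nonneg (fderiv ℝ (χ : E 4 → ℝ) z),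
      mul_le_mul_of_nonneg_right h1 (norm_nonneg (y - x))]
  obtain ⟨K, hK, hKd⟩ := exists_dff hdf
  refine ⟨K, hKd, ?_, closedBall x r, isCompact_closedBall _ _, hrU, fun z hz => ?_⟩
  · rw [hK, χ.one_of_mem_closedBall (mem_closedBall_self (by positivity)), one_smul,
      add_sub_cancel]
  · rw [hK, χ.zero_of_le_dist, zero_smul, add_zero]
    rw [mem_closedBall, not_le] at hz
    exact hz.le

/-- homogeneity -/
theorem mv {U : Set (E 4)} (hU : IsOpen U) (hc : IsPreconnected U) {x y : E 4} (hx : x ∈ U)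
    (hy : y ∈ U) : Mv U x y :=
  hc.induction₂ (Mv U) (fun _ hx => mem_nhdsWithin_of_mem_nhds (mv_small hU hx))
    (fun _ _ _ _ _ _ h h' => h.trans' h') (fun _ _ _ _ h => h.symm') hx hy

theorem rank4 : 1 < Module.rank ℝ (E 4) := by
  rw [← Module.finrank_eq_rank, finrank_euclideanSpace, Fintype.card_fin]
  norm_num

theorem compl_pre (a : E 4) : IsPreconnected ({a}ᶜ : Set (E 4)) :=
  (isConnected_compl_singleton_of_one_lt_rank rank4 a).isPreconnected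

/-- compact support -/
theorem exists_radius {L : Set (E 4)} (hL : IsCompact L) : ∃ R : ℝ, 0 < R ∧ ∀ x ∈ L, ‖x‖ < R := by
  obtain ⟨R, hR⟩ := hL.isBounded.exists_norm_le
  exact ⟨|R| + 1, by positivity, fun x hx => by linarith [hR x hx, le_abs_self R]⟩

/-- The normal form of a homeomorphism with compact support and two singular points. -/
theorem normal (F : E 4 ≃ₜ E 4) (b : E 4) (hb : b ≠ 0) (h0 : F 0 = 0) (hFb : F b = b) (R : ℝ)
    (hout : ∀ x, R ≤ ‖x‖ → F x = x) (hld : ∀ x, x ≠ 0 → x ≠ b → LD 4 F x) :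
    ∃ K : E 4 ≃ₜ E 4, Dff K ∧ K 0 = pa ∧ Core (cj K F) := by
  have hbi : ∀ p : E 4, ‖p‖ < 1 → bb 4 (bi 4 p) = p := fun p hp => bb_bi 4 p hp
  set a' := bi 4 pa with ha'
  set b' := bi 4 pb with hb'
  have hpa : bb 4 a' = pa := hbi _ (by rw [pa_norm]; norm_num)
  have hpb : bb 4 b' = pb := hbi _ (by rw [pb_norm]; norm_num)
  have hab : b' ≠ a' := by
    intro hcon
    have h1 : pb = pa := by rw [← hpa, ← hpb, hcon]
    have h2 := dist_pa_pb
    rw [h1, sub_self, norm_zero] at h2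
    norm_num at h2
  obtain ⟨K₁, hK₁, hK₁0, -⟩ := mv isOpen_univ isPreconnected_univ (mem_univ (0 : E 4))
    (mem_univ a')
  have h1 : K₁ b ≠ a' := by
    intro hcon
    rw [← hK₁0] at hcon
    exact hb (K₁.injective hcon)
  obtain ⟨K₂, hK₂, hK₂b, L, hL, hLU, hLo⟩ := mv (U := {a'}ᶜ) isOpen_compl_singleton (compl_pre a')
    h1 hab
  have hK₂a : K₂ a' = a' := hLo _ (fun hcon => hLU hcon rfl)
  set K₃ := K₁.trans K₂ with hK₃
  have hK₃0 : K₃ 0 = a' := by rw [hK₃, Homeomorph.trans_apply, hK₁0, hK₂a]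
  have hK₃b : K₃ b = b' := by rw [hK₃, Homeomorph.trans_apply, hK₂b]
  obtain ⟨R', hR', hR''⟩ := exists_radius
    (((isCompact_closedBall (0 : E 4) R).image K₃.continuous).union
      (isCompact_singleton (x := a') |>.union (isCompact_singleton (x := b'))))
  have hbbd : ∀ z, LD 4 (bb 4) z := by
    intro z
    refine ld_of_left_inverse (g := bi 4) (Eventually.of_forall fun _ =>
      (bb_smooth 4).contDiffAt) ?_ (Eventually.of_forall fun y => bi_bb 4 y)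
    exact ((bi_smooth 4).contDiffAt (isOpen_ball.mem_nhds
      (mem_ball_zero_iff.2 (bb_mem 4 z)))).differentiableAt (by simp)
  have hbbi : Injective (bb 4) := Function.LeftInverse.injective (bi_bb 4)
  obtain ⟨G, hG1, hG2, hG3⟩ := Pool.Agent.Y784.SH.ext Pool.Agent.Y248.SH.germ 4 (bb 4) hbbi hbbd R'
  obtain ⟨K₄, hK₄, hK₄d⟩ := exists_dff ⟨hG1, hG2⟩
  have hK0 : (K₃.trans K₄) 0 = pa := by
    rw [Homeomorph.trans_apply, hK₃0, hK₄, hG3 a' (hR'' a' (Or.inr (Or.inl rfl))).le, hpa]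
  have hKb : (K₃.trans K₄) b = pb := by
    rw [Homeomorph.trans_apply, hK₃b, hK₄, hG3 b' (hR'' b' (Or.inr (Or.inr rfl))).le, hpb]
  have hKD : Dff (K₃.trans K₄) := (hK₁.trans hK₂).trans hK₄d
  refine ⟨K₃.trans K₄, hKD, hK0, ?_, ?_, fun x hx => ?_, fun x hxa hxb => ?_⟩
  · rw [cj_apply, ← hK0, Homeomorph.symm_apply_apply, h0]
  · rw [cj_apply, ← hKb, Homeomorph.symm_apply_apply, hFb]
  · rw [cj_apply, hout, Homeomorph.apply_symm_apply]
    by_contra hcon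
    rw [not_le] at hcon
    have h2 : ‖K₃ ((K₃.trans K₄).symm x)‖ < R' := hR'' _ (Or.inl ⟨_, by
      rw [mem_closedBall_zero_iff]; exact hcon.le, rfl⟩)
    have h3 : K₄ (K₃ ((K₃.trans K₄).symm x)) = x := (K₃.trans K₄).apply_symm_apply x
    rw [hK₄, hG3 _ h2.le] at h3
    have h4 := bb_mem 4 (K₃ ((K₃.trans K₄).symm x))
    rw [h3] at h4
    linarith
  · apply cj_ld hKD
    apply hld
    · intro hcon
      rw [Homeomorph.symm_apply_eq, hK0] at hcon
      exact hxa hcon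
    · intro hcon
      rw [Homeomorph.symm_apply_eq, hKb] at hcon
      exact hxb hcon

/-! ### nice points -/

/-- `H` is differentiable at `z` with invertible derivative, and bi-Lipschitz near `z` -/
def Nice (H : E 4 → E 4) (z : E 4) : Prop :=
  (∃ A : E 4 ≃L[ℝ] E 4, HasFDerivAt H (A : E 4 →L[ℝ] E 4) z) ∧ ∃ C : ℝ, LB C H z

theorem LB.nonneg {C : ℝ} {f : E 4 → E 4} {x : E 4} (h : LB C f x) : 0 ≤ C := by
  obtain ⟨U, hU, hUC⟩ := h
  obtain ⟨r, hr, hrU⟩ := Metric.mem_nhds_iff.1 hU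
  have h1 : x ∈ U := hrU (mem_ball_self hr)
  have h2 : x + (r / 2) • e1 ∈ U := hrU (by
    rw [mem_ball, dist_eq_norm, add_sub_cancel_left, norm_smul_e1, abs_of_pos (by positivity)]
    linarith)
  have h3 := (hUC _ h2 _ h1).1
  rw [add_sub_cancel_left, norm_smul_e1, abs_of_pos (by positivity)] at h3
  have h4 := norm_nonneg (f (x + (r / 2) • e1) - f x)
  by_contra hcon
  nlinarith [not_le.1 hcon]

theorem LB.comp {C C' : ℝ} {f g : E 4 → E 4} {x : E 4} (hg : LB C' g (f x)) (hf : LB C f x)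
    (hc : ContinuousAt f x) : LB (C' * C) (fun y => g (f y)) x := by
  have hC' := hg.nonneg
  have hC := hf.nonneg
  obtain ⟨U, hU, hUC⟩ := hf
  obtain ⟨V, hV, hVC⟩ := hg
  refine ⟨U ∩ f ⁻¹' V, inter_mem hU (hc hV), fun y hy y' hy' => ?_⟩
  obtain ⟨h1, h2⟩ := hUC y hy.1 y' hy'.1
  obtain ⟨h3, h4⟩ := hVC _ hy.2 _ hy'.2
  constructor
  · calc ‖g (f y) - g (f y')‖ ≤ C' * ‖f y - f y'‖ := h3
      _ ≤ C' * (C * ‖y - y'‖) := mul_le_mul_of_nonneg_left h1 hC'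
      _ = C' * C * ‖y - y'‖ := by ring
  · calc ‖y - y'‖ ≤ C * ‖f y - f y'‖ := h2
      _ ≤ C * (C' * ‖g (f y) - g (f y')‖) := mul_le_mul_of_nonneg_left h4 hC
      _ = C' * C * ‖g (f y) - g (f y')‖ := by ring

theorem nice_of_ld {f : E 4 → E 4} {x : E 4} (h : LD 4 f x) : Nice f x := by
  obtain ⟨C, -, hC⟩ := lb_of_LD h
  exact ⟨h.exists_equiv, C, hC⟩

theorem Nice.comp {f g : E 4 → E 4} {x : E 4} (hg : Nice g (f x)) (hf : Nice f x) :
    Nice (fun y => g (f y)) x := by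
  obtain ⟨⟨A, hA⟩, C, hC⟩ := hf
  obtain ⟨⟨B, hB⟩, C', hC'⟩ := hg
  exact ⟨⟨A.trans B, hB.comp x hA⟩, C' * C, hC'.comp hC hA.continuousAt⟩

theorem Nice.congr {f g : E 4 → E 4} {x : E 4} (hf : Nice f x) (h : g =ᶠ[𝓝 x] f) : Nice g x := by
  obtain ⟨⟨A, hA⟩, C, hC⟩ := hf
  exact ⟨⟨A, hA.congr_of_eventuallyEq h⟩, C, hC.congr h⟩

theorem sw_nice {γ : E 4 ≃ₜ E 4} (hγ : Core γ) : Nice (sw hγ) zz := by
  obtain ⟨C, r, hr, h⟩ := sw_bilip hγ
  exact ⟨⟨ContinuousLinearEquiv.refl ℝ (E 4), sw_deriv hγ⟩, C, ball zz r, ball_mem_nhds _ hr, h⟩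

end Pool.Agent.L0h29.BL
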