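import Pool.Agent.Y522.Basic

/-!
# Project BL: locally bi-Lipschitz maps
-/

set_option autoImplicit false

open Set Filter Topology Metric Function
open scoped Manifold ContDiff

noncomputable section

namespace Pool.Agent.L0h29.BL

open Pool.Agent.Y522

variable {n : ℕ}

/-- `f` is bi-Lipschitz near `x` with constant `C` -/
def LB (C : ℝ) (f : E n → E n) (x : E n) : Prop :=
  ∃ U ∈ 𝓝 x, ∀ y ∈ U, ∀ y' ∈ U, ‖f y - f y'‖ ≤ C * ‖y - y'‖ ∧ ‖y - y'‖ ≤ C * ‖f y - f y'‖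

/-- `f` is Lipschitz near `x` with constant `C` -/
def LL (C : ℝ) (f : E n → E n) (x : E n) : Prop :=
  ∃ U ∈ 𝓝 x, ∀ y ∈ U, ∀ y' ∈ U, ‖f y - f y'‖ ≤ C * ‖y - y'‖

theorem LB.ll {C : ℝ} {f : E n → E n} {x : E n} (h : LB C f x) : LL C f x := by
  obtain ⟨U, hU, h⟩ := h
  exact ⟨U, hU, fun y hy y' hy' => (h y hy y' hy').1⟩

theorem LB.mono {C C' : ℝ} {f : E n → E n} {x : E n} (h : LB C f x) (hC : C ≤ C') :
    LB C' f x := by
  obtain ⟨U, hU, h⟩ := h
  refine ⟨U, hU, fun y hy y' hy' => ⟨?_, ?_⟩⟩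
  · exact (h y hy y' hy').1.trans (mul_le_mul_of_nonneg_right hC (norm_nonneg _))
  · exact (h y hy y' hy').2.trans (mul_le_mul_of_nonneg_right hC (norm_nonneg _))

theorem LB.congr {C : ℝ} {f g : E n → E n} {x : E n} (h : LB C f x) (hg : g =ᶠ[𝓝 x] f) :
    LB C g x := by
  obtain ⟨U, hU, h⟩ := h
  refine ⟨U ∩ {y | g y = f y}, inter_mem hU hg, fun y hy y' hy' => ?_⟩
  have h1 : g y = f y := hy.2
  have h2 : g y' = f y' := hy'.2
  rw [h1, h2]
  exact h y hy.1 y' hy'.1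

theorem LB.id (x : E n) : LB 1 (fun y => y) x :=
  ⟨univ, univ_mem, fun y _ y' _ => by simp⟩

/-- local diffeomorphisms are locally bi-Lipschitz -/
theorem lb_of_LD {f : E n → E n} {x : E n} (h : LD n f x) : ∃ C : ℝ, 1 ≤ C ∧ LB C f x := by
  have h1 : ContDiffAt ℝ 1 f x := h.contDiffAt.of_le (by simp)
  obtain ⟨K, t, ht, hK⟩ := h1.exists_lipschitzOnWith
  obtain ⟨Φ, hx, heq⟩ := h
  have h2 : f x = Φ x := heq hx
  have h3 : LD n Φ.symm (f x) := ⟨Φ.symm, by rw [h2]; exact Φ.map_source hx, fun _ _ => rfl⟩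
  have h4 : ContDiffAt ℝ 1 Φ.symm (f x) := h3.contDiffAt.of_le (by simp)
  obtain ⟨K', t', ht', hK'⟩ := h4.exists_lipschitzOnWith
  refine ⟨max 1 (max K K'), le_max_left _ _, t ∩ (f ⁻¹' t' ∩ Φ.source),
    inter_mem ht (inter_mem (h1.continuousAt ht') (Φ.open_source.mem_nhds hx)), ?_⟩
  intro y hy y' hy'
  have hinv : ∀ w ∈ Φ.source, Φ.symm (f w) = w := by
    intro w hw
    rw [heq hw]
    exact Φ.left_inv hw
  constructor
  · have h5 := hK.dist_le_mul y hy.1 y' hy'.1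
    rw [dist_eq_norm, dist_eq_norm] at h5
    refine h5.trans (mul_le_mul_of_nonneg_right ?_ (norm_nonneg _))
    exact (le_max_left _ _).trans (le_max_right _ _)
  · have h5 := hK'.dist_le_mul (f y) hy.2.1 (f y') hy'.2.1
    rw [hinv y hy.2.2, hinv y' hy'.2.2, dist_eq_norm, dist_eq_norm] at h5
    refine h5.trans (mul_le_mul_of_nonneg_right ?_ (norm_nonneg _))
    exact (le_max_right _ _).trans (le_max_right _ _)

/-- uniform constants on compact sets -/
theorem LB.uniform {f : E n → E n} {K : Set (E n)} (hK : IsCompact K) (h : ∀ x ∈ K, LD n f x) :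
    ∃ C : ℝ, 1 ≤ C ∧ ∀ x ∈ K, LB C f x := by
  refine hK.induction_on (p := fun S => ∃ C : ℝ, 1 ≤ C ∧ ∀ x ∈ S, LB C f x)
    ⟨1, le_rfl, fun x hx => absurd hx (notMem_empty x)⟩ ?_ ?_ ?_
  · rintro s t hst ⟨C, hC1, hC⟩
    exact ⟨C, hC1, fun x hx => hC x (hst hx)⟩
  · rintro s t ⟨C, hC1, hC⟩ ⟨C', hC1', hC'⟩
    refine ⟨max C C', hC1.trans (le_max_left _ _), fun x hx => ?_⟩
    rcases hx with hx | hx
    · exact (hC x hx).mono (le_max_left _ _)
    · exact (hC' x hx).mono (le_max_right _ _)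
  · intro x hx
    obtain ⟨C, hC1, U, hU, hC⟩ := lb_of_LD (h x hx)
    obtain ⟨V, hVU, hV, hxV⟩ := _root_.mem_nhds_iff.1 hU
    exact ⟨V, mem_nhdsWithin_of_mem_nhds (hV.mem_nhds hxV), C, hC1, fun y hy =>
      ⟨V, hV.mem_nhds hy, fun w hw w' hw' => hC w (hVU hw) w' (hVU hw')⟩⟩

/-- a locally Lipschitz map on a segment -/
theorem LL.segment {C : ℝ} {f : E n → E n} (hf : Continuous f) (x y : E n)
    (h : ∀ t : ℝ, 0 ≤ t → t < 1 → LL C f (x + t • (y - x))) :
    ‖f y - f x‖ ≤ C * ‖y - x‖ := by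
  have hg : Continuous fun t : ℝ => f (x + t • (y - x)) := by fun_prop
  set S : Set ℝ := {t | ‖f (x + t • (y - x)) - f x‖ ≤ C * (t * ‖y - x‖)} with hS
  have hSc : IsClosed S := isClosed_le (by fun_prop) (by fun_prop)
  have h0 : (0 : ℝ) ∈ S := by simp [hS]
  have key := (hSc.inter isClosed_Icc).Icc_subset_of_forall_exists_gt (a := 0) (b := 1) h0 ?_
  · have h1 : (1 : ℝ) ∈ S := key ⟨zero_le_one, le_rfl⟩
    simpa [hS] using h1
  · rintro t ⟨htS, ht0, ht1⟩ u hu
    obtain ⟨U, hU, hUL⟩ := h t ht0 ht1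
    have h2 : ContinuousAt (fun t : ℝ => x + t • (y - x)) t := by fun_prop
    obtain ⟨δ, hδ, hδU⟩ := Metric.mem_nhds_iff.1 (h2 hU)
    have hu' : t < u := hu
    set r : ℝ := min u (t + δ / 2) with hr
    have hr1 : t < r := lt_min hu' (by linarith)
    have hr2 : r ≤ u := min_le_left _ _
    have hr3 : r ≤ t + δ / 2 := min_le_right _ _
    refine ⟨r, ?_, hr1, hr2⟩
    have h3 : x + r • (y - x) ∈ U := hδU (by
      rw [mem_ball, Real.dist_eq, abs_of_pos (by linarith)]; linarith)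
    have h4 : x + t • (y - x) ∈ U := mem_of_mem_nhds hU
    have h5 := hUL _ h3 _ h4
    have h6 : x + r • (y - x) - (x + t • (y - x)) = (r - t) • (y - x) := by
      rw [sub_smul]; abel
    rw [h6, norm_smul, Real.norm_of_nonneg (by linarith)] at h5
    have h7 : ‖f (x + t • (y - x)) - f x‖ ≤ C * (t * ‖y - x‖) := htS
    show ‖f (x + r • (y - x)) - f x‖ ≤ C * (r * ‖y - x‖)
    calc ‖f (x + r • (y - x)) - f x‖
        ≤ ‖f (x + r • (y - x)) - f (x + t • (y - x))‖ + ‖f (x + t • (y - x)) - f x‖ := by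
          have := norm_add_le (f (x + r • (y - x)) - f (x + t • (y - x)))
            (f (x + t • (y - x)) - f x)
          rwa [sub_add_sub_cancel] at this
      _ ≤ C * ((r - t) * ‖y - x‖) + C * (t * ‖y - x‖) := add_le_add h5 h7
      _ = C * (r * ‖y - x‖) := by ring

/-- a continuous map which is locally Lipschitz on a ball minus its centre -/
theorem LL.on_ball {C : ℝ} {f : E n → E n} (hf : Continuous f) (z : E n) (r : ℝ)
    (h : ∀ x ∈ ball z r, x ≠ z → LL C f x) :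
    ∀ x ∈ ball z r, ∀ y ∈ ball z r, ‖f x - f y‖ ≤ C * ‖x - y‖ := by
  -- points which are joined to `y` by a segment avoiding `z`
  have h1 : ∀ x ∈ ball z r, ∀ y ∈ ball z r, (∀ t : ℝ, 0 ≤ t → t < 1 → x + t • (y - x) ≠ z) →
      ‖f y - f x‖ ≤ C * ‖y - x‖ := by
    intro x hx y hy hne
    refine LL.segment hf x y (fun t ht0 ht1 => h _ ?_ (hne t ht0 ht1))
    exact (convex_ball z r).add_smul_sub_mem hx hy ⟨ht0, ht1.le⟩
  -- the segment from `x` to `z`
  have h2 : ∀ x ∈ ball z r, ‖f z - f x‖ ≤ C * ‖z - x‖ := by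
    intro x hx
    by_cases hxz : x = z
    · rw [hxz]; simp
    · refine h1 x hx z (mem_ball_self (pos_of_mem_ball hx)) (fun t ht0 ht1 hcon => ?_)
      have h3 : (1 - t) • (x - z) = 0 := by
        have h4 : (1 - t) • (x - z) = x + t • (z - x) - z := by
          rw [sub_smul, one_smul, smul_sub, smul_sub]; abel
        rw [h4, hcon, sub_self]
      rcases smul_eq_zero.1 h3 with h4 | h4
      · linarith
      · exact hxz (sub_eq_zero.1 h4)
  intro x hx y hy
  by_cases hseg : ∀ t : ℝ, 0 ≤ t → t < 1 → x + t • (y - x) ≠ z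
  · have h3 := h1 x hx y hy hseg
    rwa [norm_sub_rev (f x), norm_sub_rev x]
  · push Not at hseg
    obtain ⟨t, ht0, ht1, htz⟩ := hseg
    have h3 := h2 x hx
    have h4 := h2 y hy
    have h5 : ‖z - x‖ = t * ‖y - x‖ := by
      rw [← htz, add_sub_cancel_left, norm_smul, Real.norm_of_nonneg ht0]
    have h6 : ‖z - y‖ = (1 - t) * ‖y - x‖ := by
      have h7 : z - y = -((1 - t) • (y - x)) := by
        rw [← htz, sub_smul, one_smul]; abel
      rw [h7, norm_neg, norm_smul, Real.norm_of_nonneg (by linarith)]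
    calc ‖f x - f y‖ ≤ ‖f x - f z‖ + ‖f z - f y‖ := by
          have := norm_add_le (f x - f z) (f z - f y)
          rwa [sub_add_sub_cancel] at this
      _ ≤ C * ‖z - x‖ + C * ‖z - y‖ := by
          rw [norm_sub_rev (f x)]
          exact add_le_add h3 h4
      _ = C * ‖x - y‖ := by rw [h5, h6, norm_sub_rev x]; ring

end Pool.Agent.L0h29.BL
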