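import Pool.Agent.L0h29.BL.Thm
import Pool.Agent.N550.TS.Flm
import Pool.Agent.N550.KH.Cell
import Pool.Agent.N550.KH.Jn

/-!
# Project BL: manifolds
-/

set_option autoImplicit false

open Set Filter Topology Metric Function MeasureTheory
open scoped Manifold ContDiff

noncomputable section

namespace Pool.Agent.L0h29.BL

open Pool.Agent.Y522 Pool.Agent.N550.KH Pool.Agent.L0h29.CS.Sqz Pool.Agent.N550.SH.Moeb
  Pool.Agent.N550.KH.End Pool.Agent.N550.TS.Flm Pool.Agent.N550.KH.Supp

variable {M N : Type} [TopologicalSpace M] [ChartedSpace (E 4) M] [TopologicalSpace N]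
  [ChartedSpace (E 4) N]

/-- nice in the preferred charts -/
def NiceM (f : M → N) (x : M) : Prop :=
  Nice (fun y => chartAt (E 4) (f x) (f ((chartAt (E 4) x).symm y))) (chartAt (E 4) x x)

theorem NiceM.congr {f g : M → N} {x : M} (hf : NiceM f x) (h : g =ᶠ[𝓝 x] f) : NiceM g x := by
  unfold NiceM at *
  rw [h.self_of_nhds]
  refine hf.congr ?_
  have h1 : Tendsto (chartAt (E 4) x).symm (𝓝 (chartAt (E 4) x x)) (𝓝 x) := by
    have h2 := (chartAt (E 4) x).continuousAt_symm (mem_chart_target (E 4) x)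
    unfold ContinuousAt at h2
    rwa [(chartAt (E 4) x).left_inv (mem_chart_source (E 4) x)] at h2
  filter_upwards [h1.eventually h] with y hy
  rw [hy]

/-- the main criterion -/
theorem niceM_of [IsManifold (𝓡 4) ∞ M] [IsManifold (𝓡 4) ∞ N] {f : M → N} {x : M}
    {a : E 4 → M} {c : E 4 → N} {H : E 4 → E 4} {z : E 4} (hai : Injective a)
    (hal : ∀ z, LD 4 a z) (hcl : ∀ z, LD 4 c z) (haz : a z = x)
    (hf : ∀ w, f (a w) = c (H w)) (hH : Nice H z) : NiceM f x := by
  unfold NiceM
  set φ := chartAt (E 4) x with hφ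
  set ψ := chartAt (E 4) (f x) with hψ
  have hfx : f x = c (H z) := by rw [← haz, hf]
  have hx : x ∈ φ.source := mem_chart_source (E 4) x
  have h0 : φ.symm (φ x) = x := φ.left_inv hx
  have h1 : LD 4 φ.symm (φ x) := ld_chart_symm x _ (mem_chart_target (E 4) x)
  have h2 : LD 4 (invFun a) (φ.symm (φ x)) := by
    rw [h0, ← haz]
    exact inv_LD hai hal z
  have h3 : LD 4 (fun y => invFun a (φ.symm y)) (φ x) :=
    LD.comp_fun (g := invFun a) (f := φ.symm) h2 h1
  have h4 : invFun a (φ.symm (φ x)) = z := by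
    rw [h0, ← haz]
    exact leftInverse_invFun hai z
  have h5 : Nice H ((fun y => invFun a (φ.symm y)) (φ x)) := by
    show Nice H (invFun a (φ.symm (φ x)))
    rw [h4]
    exact hH
  have h6 : LD 4 ψ (c (H z)) := by
    rw [← hfx]
    exact Jn.ld_chart (f x) (f x) (mem_chart_source (E 4) _)
  have h7 : LD 4 (fun y => ψ (c y)) (H ((fun y => invFun a (φ.symm y)) (φ x))) := by
    show LD 4 (fun y => ψ (c y)) (H (invFun a (φ.symm (φ x))))
    rw [h4]
    exact LD.comp_fun (g := ψ) (f := c) h6 (hcl _)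
  have h8 := Nice.comp (g := fun y => ψ (c y)) (f := fun y => H (invFun a (φ.symm y)))
    (nice_of_ld h7) (Nice.comp (g := H) (f := fun y => invFun a (φ.symm y)) h5 (nice_of_ld h3))
  refine h8.congr ?_
  have h9 : range a ∈ 𝓝 (φ.symm (φ x)) := by
    have ho : IsOpen (range a) := by
      rw [← image_univ]
      exact isOpen_image_of_LD isOpen_univ fun x _ => hal x
    exact ho.mem_nhds ⟨z, by rw [h0, haz]⟩
  filter_upwards [h1.continuousAt h9] with y hy
  obtain ⟨w, hw⟩ := hy
  show ψ (f (φ.symm y)) = ψ (c (H (invFun a (φ.symm y))))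
  rw [← hw, hf, leftInverse_invFun hai w]

theorem niceM_of_ld [IsManifold (𝓡 4) ∞ M] [IsManifold (𝓡 4) ∞ N] {f : M → N} {x : M}
    (h : LD 4 f x) : NiceM f x := by
  unfold NiceM
  have h0 : (chartAt (E 4) x).symm (chartAt (E 4) x x) = x :=
    (chartAt (E 4) x).left_inv (mem_chart_source (E 4) x)
  have h1 : LD 4 (chartAt (E 4) x).symm (chartAt (E 4) x x) :=
    ld_chart_symm x _ (mem_chart_target (E 4) x)
  have h2 : LD 4 f ((chartAt (E 4) x).symm (chartAt (E 4) x x)) := by rwa [h0]
  have h3 : LD 4 (chartAt (E 4) (f x)) (f ((chartAt (E 4) x).symm (chartAt (E 4) x x))) := by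
    rw [h0]
    exact Jn.ld_chart (f x) (f x) (mem_chart_source (E 4) _)
  exact nice_of_ld (LD.comp_fun (g := chartAt (E 4) (f x))
    (f := fun y => f ((chartAt (E 4) x).symm y)) h3
    (LD.comp_fun (g := f) (f := (chartAt (E 4) x).symm) h2 h1))

/-- a small cell about a point -/
theorem exists_cell [IsManifold (𝓡 4) ∞ N] {y₀ : N} {W : Set N} (hW : W ∈ 𝓝 y₀) :
    ∃ c : E 4 → N, Injective c ∧ (∀ z, LD 4 c z) ∧ c 0 = y₀ ∧ range c ⊆ W := by
  obtain ⟨c, hi, hl, h0⟩ := exists_cell0 (n := 4) y₀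
  have h1 : c ⁻¹' W ∈ 𝓝 (0 : E 4) := (hl 0).continuousAt (by rw [h0]; exact hW)
  obtain ⟨ρ, hρ, hρW⟩ := Metric.mem_nhds_iff.1 h1
  refine ⟨fun z => c (jb ρ z), fun x y h => jb_inj ρ hρ (hi h), fun z =>
    LD.comp_fun (g := c) (f := jb ρ) (hl _) (jb_LD ρ hρ z), ?_, ?_⟩
  · show c (jb ρ 0) = y₀
    rw [jb_zero, h0]
  · rintro _ ⟨z, rfl⟩
    exact hρW (mem_ball_zero_iff.2 (jb_norm ρ hρ z))

theorem nullH_finite {B : Set N} (hB : B.Finite) : NullH 4 B := by
  intro h hi _
  have h1 : NullSingletonClass (Measure.hausdorffMeasure 1 : Measure (E 4)) :=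
    Measure.nullSingletonClass_hausdorff (E 4) one_pos
  exact (hB.preimage hi.injOn).measure_zero (Measure.hausdorffMeasure 1 : Measure (E 4))

theorem one_point [T2Space M] [IsManifold (𝓡 4) ∞ M] [IsManifold (𝓡 4) ∞ N] (G : M ≃ₜ N)
    (S : Set M) (hS : S.Finite) (hG : ∀ x, x ∉ S → LD 4 G x) (x₀ : M) (U : Set M)
    (hU : U ∈ 𝓝 x₀) (hUS : ∀ x ∈ U, x ∈ S → x = x₀) :
    ∃ (G' : M ≃ₜ N) (z' : M), z' ∈ U ∧ (∀ x, x ∉ U → G' =ᶠ[𝓝 x] G) ∧
      (∀ x, x ≠ z' → (x ∈ S → x = x₀) → LD 4 G' x) ∧ NiceM G' z' := by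
  have hW : G.symm ⁻¹' U ∈ 𝓝 (G x₀) := G.symm.continuous.continuousAt (by
    rw [G.symm_apply_apply]; exact hU)
  obtain ⟨c, hci, hcl, hc0, hcW⟩ := exists_cell hW
  have hnull : NullH 4 (G '' Bad 4 G) := by
    refine nullH_finite ((hS.image G).subset (image_mono fun x hx => ?_))
    by_contra hcon
    exact hx ((hG x hcon).eventually.mono fun y hy => hy.contMDiffAt)
  obtain ⟨a, hai, hal, hra⟩ := Cell.main 4 M N G c hnull hci hcl
  have haU : range a ⊆ U := by
    rw [hra]
    intro x hx
    have h1 := hcW hx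
    rwa [mem_preimage, G.symm_apply_apply] at h1
  have hac : Continuous a := continuous_iff_continuousAt.2 fun z => (hal z).continuousAt
  have hcc : Continuous c := continuous_iff_continuousAt.2 fun z => (hcl z).continuousAt
  have hcv : ∀ w, invFun c (c w) = w := leftInverse_invFun hci
  have hav : ∀ w, invFun a (a w) = w := leftInverse_invFun hai
  -- the map in coordinates
  have hm1 : ∀ w, G (a w) ∈ range c := fun w => by
    have : a w ∈ G ⁻¹' range c := hra ▸ mem_range_self w
    exact this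
  have hm2 : ∀ w, G.symm (c w) ∈ range a := fun w => by
    rw [hra, mem_preimage, G.apply_symm_apply]
    exact mem_range_self w
  have hc1 : ∀ w, c (invFun c (G (a w))) = G (a w) := fun w => by
    obtain ⟨v, hv⟩ := hm1 w
    rw [← hv, hcv]
  have hc2 : ∀ w, a (invFun a (G.symm (c w))) = G.symm (c w) := fun w => by
    obtain ⟨v, hv⟩ := hm2 w
    rw [← hv, hav]
  let F : E 4 ≃ₜ E 4 :=
    { toFun := fun w => invFun c (G (a w))
      invFun := fun w => invFun a (G.symm (c w))
      left_inv := fun w => by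
        show invFun a (G.symm (c (invFun c (G (a w))))) = w
        rw [hc1, G.symm_apply_apply, hav]
      right_inv := fun w => by
        show invFun c (G (a (invFun a (G.symm (c w))))) = w
        rw [hc2, G.apply_symm_apply, hcv]
      continuous_toFun := by
        rw [continuous_iff_continuousAt]
        intro w
        have h1 : ContinuousAt (invFun c) (G (a w)) := by
          obtain ⟨v, hv⟩ := hm1 w
          rw [← hv]
          exact (inv_LD hci hcl v).continuousAt
        exact ContinuousAt.comp (g := invFun c) (f := fun w => G (a w)) h1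
          (G.continuous.comp hac).continuousAt
      continuous_invFun := by
        rw [continuous_iff_continuousAt]
        intro w
        have h1 : ContinuousAt (invFun a) (G.symm (c w)) := by
          obtain ⟨v, hv⟩ := hm2 w
          rw [← hv]
          exact (inv_LD hai hal v).continuousAt
        exact ContinuousAt.comp (g := invFun a) (f := fun w => G.symm (c w)) h1
          (G.symm.continuous.comp hcc).continuousAt }
  have hF : ∀ w, F w = invFun c (G (a w)) := fun _ => rfl
  have hcF : ∀ w, c (F w) = G (a w) := hc1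
  obtain ⟨x₁, hx₁⟩ : ∃ x₁, a x₁ = x₀ := by
    have h1 : x₀ ∈ range a := by
      rw [hra, mem_preimage, ← hc0]
      exact mem_range_self 0
    exact h1
  obtain ⟨H, z, R, hHo, hHl, hHz⟩ := local_thm F x₁ (fun x hx => by
    have h1 : a x ∉ S := by
      intro hcon
      have h2 := hUS (a x) (haU (mem_range_self x)) hcon
      rw [← hx₁] at h2
      exact hx (hai h2)
    have h3 : LD 4 (invFun c) (G (a x)) := by
      rw [← hcF]
      exact inv_LD hci hcl _
    exact LD.comp_fun (g := invFun c) (f := fun w => G (a w)) h3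
      (LD.comp_fun (g := G) (f := a) (hG _ h1) (hal x)))
  have hR : ∀ w, R ≤ ‖w‖ → (H.trans F.symm) w = w := fun w hw => by
    rw [Homeomorph.trans_apply, hHo w hw, F.symm_apply_apply]
  obtain ⟨Ψ, hΨ⟩ := act_homeo hai hal (H.trans F.symm) hR
  have hkey : ∀ w, (Ψ.trans G) (a w) = c (H w) := by
    intro w
    rw [Homeomorph.trans_apply, hΨ, act_range hai, ← hcF, Homeomorph.trans_apply,
      F.apply_symm_apply]
  have hfar : ∀ x, x ∉ range a → (Ψ.trans G) =ᶠ[𝓝 x] G := by
    intro x hx
    filter_upwards [act_far hai hal hR hx] with y hy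
    rw [Homeomorph.trans_apply, hΨ, hy]
  refine ⟨Ψ.trans G, a z, haU (mem_range_self z), fun x hx => hfar x fun hcon => hx (haU hcon),
    fun x hx hxS => ?_, niceM_of hai hal hcl rfl hkey hHz⟩
  by_cases hxa : x ∈ range a
  · obtain ⟨w, rfl⟩ := hxa
    have hwz : w ≠ z := fun hcon => hx (by rw [hcon])
    have h1 : LD 4 (fun y => c (H (invFun a y))) (a w) := by
      have h2 : LD 4 H (invFun a (a w)) := by
        rw [hav]
        exact hHl w hwz
      exact LD.comp_fun (g := c) (f := fun y => H (invFun a y)) (hcl _)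
        (LD.comp_fun (g := H) (f := invFun a) h2 (inv_LD hai hal w))
    refine h1.congr ?_
    have ho : IsOpen (range a) := by
      rw [← image_univ]
      exact isOpen_image_of_LD isOpen_univ fun x _ => hal x
    filter_upwards [ho.mem_nhds (mem_range_self w)] with y hy
    obtain ⟨v, rfl⟩ := hy
    rw [hkey, hav]
  · refine (hG x fun hcon => ?_).congr (hfar x hxa)
    apply hxa
    rw [hxS hcon, ← hx₁]
    exact mem_range_self _

/-- finitely many points -/
theorem finite_points [T2Space M] [IsManifold (𝓡 4) ∞ M] [IsManifold (𝓡 4) ∞ N] (U : Set M)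
    (hU : IsOpen U) : ∀ (k : ℕ) (G : M ≃ₜ N) (S T : Set M), S.Finite → T ⊆ S → T.ncard = k →
    S ⊆ U → (∀ x, x ∉ S → LD 4 G x) → (∀ x, x ∉ T → NiceM G x) →
    ∃ (G' : M ≃ₜ N) (S' : Set M), S'.Finite ∧ S'.ncard ≤ S.ncard ∧ S' ⊆ U ∧
      (∀ x, x ∉ U → G' x = G x) ∧ (∀ x, x ∉ S' → LD 4 G' x) ∧ ∀ x, NiceM G' x := by
  intro k
  induction k with
  | zero =>
    intro G S T hS hTS hk hSU hG hGT
    have hT : T = ∅ := (Set.ncard_eq_zero (hS.subset hTS)).1 hk
    exact ⟨G, S, hS, le_rfl, hSU, fun x _ => rfl, hG, fun x => hGT x (by rw [hT]; simp)⟩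
  | succ k ih =>
    intro G S T hS hTS hk hSU hG hGT
    obtain ⟨x₀, hx₀⟩ : T.Nonempty := by
      rw [← Set.ncard_pos (hS.subset hTS), hk]
      exact Nat.succ_pos k
    have hV : U ∩ (S \ {x₀})ᶜ ∈ 𝓝 x₀ := by
      refine inter_mem (hU.mem_nhds (hSU (hTS hx₀))) ?_
      refine (hS.subset sdiff_subset).isClosed.isOpen_compl.mem_nhds ?_
      exact fun hcon => hcon.2 rfl
    obtain ⟨G₁, z', hz', hG₁o, hG₁l, hG₁z⟩ := one_point G S hS hG x₀ _ hV (fun x hx hxS => by
      by_contra hcon
      exact hx.2 ⟨hxS, hcon⟩)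
    have hfin : (insert z' (S \ {x₀})).Finite := (hS.subset sdiff_subset).insert z'
    have hcard : (insert z' (S \ {x₀})).ncard ≤ S.ncard := by
      refine (Set.ncard_insert_le _ _).trans ?_
      have := Set.ncard_sdiff_singleton_add_one (hTS hx₀) hS
      omega
    obtain ⟨G', S', h1, h2, h3, h4, h5, h6⟩ := ih G₁ (insert z' (S \ {x₀})) (T \ {x₀}) hfin
      ((sdiff_subset_sdiff_left hTS).trans (subset_insert _ _)) (by
        have := Set.ncard_sdiff_singleton_add_one hx₀ (hS.subset hTS)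
        omega) (insert_subset hz'.1 (sdiff_subset.trans hSU)) (fun x hx => by
        rw [mem_insert_iff, not_or] at hx
        refine hG₁l x hx.1 fun hxS => ?_
        by_contra hcon
        exact hx.2 ⟨hxS, hcon⟩) (fun x hx => by
        by_cases hxV : x ∈ U ∩ (S \ {x₀})ᶜ
        · by_cases hxz : x = z'
          · rw [hxz]
            exact hG₁z
          · refine niceM_of_ld (hG₁l x hxz fun hxS => ?_)
            by_contra hcon
            exact hxV.2 ⟨hxS, hcon⟩
        · refine (hGT x fun hxT => ?_).congr (hG₁o x hxV)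
          refine hx ⟨hxT, fun hcon => ?_⟩
          rw [mem_singleton_iff] at hcon
          rw [hcon] at hxV
          exact hxV (mem_of_mem_nhds hV))
    refine ⟨G', S', h1, h2.trans hcard, h3, fun x hx => ?_, h5, h6⟩
    rw [h4 x hx]
    exact (hG₁o x fun hcon => hx hcon.1).self_of_nhds

end Pool.Agent.L0h29.BL
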