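import Pool.Agent.L0h29.CS.Sqz

/-!
# Project BL: rotations, twists and radial maps
-/

set_option autoImplicit false

open Set Filter Topology Metric Function
open scoped Manifold ContDiff

noncomputable section

namespace Pool.Agent.L0h29.BL

open Pool.Agent.Y522 Pool.Agent.L0h29.CS.Sqz

/-- a vector of `ℝ⁴` -/
def mk4 (a b c d : ℝ) : E 4 := WithLp.toLp 2 ![a, b, c, d]

/-- the first basis vector -/
def e1 : E 4 := mk4 1 0 0 0

/-- the rotation by the angle `t` in the plane of the first two coordinates -/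
def rot (t : ℝ) (x : E 4) : E 4 :=
  mk4 (Real.cos t * x 0 - Real.sin t * x 1) (Real.sin t * x 0 + Real.cos t * x 1) (x 2) (x 3)

@[simp] theorem mk4_0 (a b c d : ℝ) : mk4 a b c d 0 = a := rfl
@[simp] theorem mk4_1 (a b c d : ℝ) : mk4 a b c d 1 = b := rfl
@[simp] theorem mk4_2 (a b c d : ℝ) : mk4 a b c d 2 = c := rfl
@[simp] theorem mk4_3 (a b c d : ℝ) : mk4 a b c d 3 = d := rfl

theorem ext4 {x y : E 4} (h0 : x 0 = y 0) (h1 : x 1 = y 1) (h2 : x 2 = y 2) (h3 : x 3 = y 3) :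
    x = y := by
  ext i
  fin_cases i
  · exact h0
  · exact h1
  · exact h2
  · exact h3

theorem norm_sq4 (x : E 4) : ‖x‖ ^ 2 = x 0 ^ 2 + x 1 ^ 2 + x 2 ^ 2 + x 3 ^ 2 := by
  rw [EuclideanSpace.norm_sq_eq, Fin.sum_univ_four]
  simp

theorem norm_e1 : ‖e1‖ = 1 := by
  have h := norm_sq4 e1
  simp only [e1, mk4_0, mk4_1, mk4_2, mk4_3] at h
  have h1 : ‖mk4 1 0 0 0‖ ^ 2 = 1 := by rw [h]; norm_num
  have h2 := norm_nonneg (mk4 1 0 0 0)
  rw [e1]
  nlinarith

theorem rot_add (s t : ℝ) (x : E 4) : rot (s + t) x = rot s (rot t x) := by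
  apply ext4
  · simp only [rot, mk4_0, mk4_1, Real.cos_add, Real.sin_add]; ring
  · simp only [rot, mk4_0, mk4_1, Real.cos_add, Real.sin_add]; ring
  · rfl
  · rfl

theorem rot_zero (x : E 4) : rot 0 x = x := by
  apply ext4
  · simp only [rot, mk4_0, Real.cos_zero, Real.sin_zero]; ring
  · simp only [rot, mk4_1, Real.cos_zero, Real.sin_zero]; ring
  · rfl
  · rfl

theorem rot_norm (t : ℝ) (x : E 4) : ‖rot t x‖ = ‖x‖ := by
  have h : ‖rot t x‖ ^ 2 = ‖x‖ ^ 2 := by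
    rw [norm_sq4, norm_sq4]
    simp only [rot, mk4_0, mk4_1, mk4_2, mk4_3]
    have h1 := Real.sin_sq_add_cos_sq t
    have h2 : (Real.cos t * x 0 - Real.sin t * x 1) ^ 2 +
        (Real.sin t * x 0 + Real.cos t * x 1) ^ 2 =
        (Real.sin t ^ 2 + Real.cos t ^ 2) * (x 0 ^ 2 + x 1 ^ 2) := by ring
    rw [h2, h1, one_mul]
  exact (sq_eq_sq₀ (norm_nonneg _) (norm_nonneg _)).1 h

theorem rot_sub (t : ℝ) (x y : E 4) : rot t (x - y) = rot t x - rot t y := by
  apply ext4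
  · simp only [rot, mk4_0, PiLp.sub_apply]; ring
  · simp only [rot, mk4_1, PiLp.sub_apply]; ring
  · rfl
  · rfl

theorem rot_addv (t : ℝ) (x y : E 4) : rot t (x + y) = rot t x + rot t y := by
  apply ext4
  · simp only [rot, mk4_0, PiLp.add_apply]; ring
  · simp only [rot, mk4_1, PiLp.add_apply]; ring
  · rfl
  · rfl

theorem rot_smul (t c : ℝ) (x : E 4) : rot t (c • x) = c • rot t x := by
  apply ext4
  · simp only [rot, mk4_0, PiLp.smul_apply, smul_eq_mul]; ring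
  · simp only [rot, mk4_1, PiLp.smul_apply, smul_eq_mul]; ring
  · rfl
  · rfl

theorem rot_pi_e1 : rot Real.pi e1 = -e1 := by
  apply ext4
  · simp [rot, e1]
  · simp [rot, e1]
  · simp [rot, e1]
  · simp [rot, e1]

theorem rot_pi_pi (x : E 4) : rot Real.pi (rot Real.pi x) = x := by
  apply ext4
  · simp [rot]
  · simp [rot]
  · rfl
  · rfl

theorem rot_smooth : ContDiff ℝ ∞ (fun p : ℝ × E 4 => rot p.1 p.2) := by
  rw [contDiff_euclidean]
  have hc : ∀ i : Fin 4, ContDiff ℝ ∞ (fun p : ℝ × E 4 => p.2 i) := fun i => by fun_prop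
  have h1 : ContDiff ℝ ∞ (fun p : ℝ × E 4 => Real.cos p.1) := Real.contDiff_cos.comp contDiff_fst
  have h2 : ContDiff ℝ ∞ (fun p : ℝ × E 4 => Real.sin p.1) := Real.contDiff_sin.comp contDiff_fst
  intro i
  fin_cases i
  · exact (h1.mul (hc 0)).sub (h2.mul (hc 1))
  · exact (h2.mul (hc 0)).add (h1.mul (hc 1))
  · exact hc 2
  · exact hc 3

/-! ### the cutoff -/

/-- the cutoff -/
def chi (t : ℝ) : ℝ := 1 - Real.smoothTransition ((t - 1 / 256) * (256 / 3))

theorem chi_smooth : ContDiff ℝ ∞ chi :=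
  contDiff_const.sub (Real.smoothTransition.contDiff.comp (by fun_prop))

theorem chi_one {t : ℝ} (h : t ≤ 1 / 256) : chi t = 1 := by
  rw [chi, Real.smoothTransition.zero_of_nonpos (by linarith), sub_zero]

theorem chi_zero {t : ℝ} (h : 1 / 64 ≤ t) : chi t = 0 := by
  rw [chi, Real.smoothTransition.one_of_one_le (by linarith), sub_self]

theorem chi_anti : Antitone chi := fun a b h => by
  have := Real.smoothTransition.monotone
    (show (a - 1 / 256) * (256 / 3) ≤ (b - 1 / 256) * (256 / 3) by linarith)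
  rw [chi, chi]; linarith

theorem chi_nonneg (t : ℝ) : 0 ≤ chi t := by
  rw [chi]; linarith [Real.smoothTransition.le_one ((t - 1 / 256) * (256 / 3))]

theorem chi_le (t : ℝ) : chi t ≤ 1 := by
  rw [chi]; linarith [Real.smoothTransition.nonneg ((t - 1 / 256) * (256 / 3))]

/-! ### twists -/

/-- the twist about `a`, with factor `s` -/
def twist (s : ℝ) (a x : E 4) : E 4 := a + rot (s * chi (‖x - a‖ ^ 2)) (x - a)

theorem twist_norm (s : ℝ) (a x : E 4) : ‖twist s a x - a‖ = ‖x - a‖ := by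
  rw [twist, add_sub_cancel_left, rot_norm]

theorem twist_twist (s : ℝ) (a x : E 4) : twist (-s) a (twist s a x) = x := by
  have h : twist (-s) a (twist s a x) =
      a + rot ((-s) * chi (‖twist s a x - a‖ ^ 2)) (twist s a x - a) := rfl
  rw [h, twist_norm, twist, add_sub_cancel_left, ← rot_add]
  have h2 : -s * chi (‖x - a‖ ^ 2) + s * chi (‖x - a‖ ^ 2) = 0 := by ring
  rw [h2, rot_zero, add_sub_cancel]

theorem twist_smooth (s : ℝ) (a : E 4) : ContDiff ℝ ∞ (twist s a) := by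
  have h1 : ContDiff ℝ ∞ (fun x : E 4 => x - a) := contDiff_id.sub contDiff_const
  have h0 : ContDiff ℝ ∞ (fun x : E 4 => ‖x - a‖ ^ 2) := h1.norm_sq ℝ
  have h5 : ContDiff ℝ ∞ (fun x : E 4 => chi (‖x - a‖ ^ 2)) := chi_smooth.comp h0
  have h2 : ContDiff ℝ ∞ (fun x : E 4 => s * chi (‖x - a‖ ^ 2)) := contDiff_const.mul h5
  have h3 : ContDiff ℝ ∞ (fun x : E 4 => (s * chi (‖x - a‖ ^ 2), x - a)) := h2.prodMk h1
  have h4 := ContDiff.comp (g := fun p : ℝ × E 4 => rot p.1 p.2)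
    (f := fun x : E 4 => (s * chi (‖x - a‖ ^ 2), x - a)) rot_smooth h3
  have h6 : twist s a = fun x => a + ((fun p : ℝ × E 4 => rot p.1 p.2) ∘
    (fun x : E 4 => (s * chi (‖x - a‖ ^ 2), x - a))) x := rfl
  rw [h6]
  exact contDiff_const.add h4

theorem twist_bij (s : ℝ) (a : E 4) : Bijective (twist s a) := by
  refine ⟨Function.LeftInverse.injective (g := twist (-s) a) (twist_twist s a),
    fun y => ⟨twist (-s) a y, ?_⟩⟩
  have := twist_twist (-s) a y
  rwa [neg_neg] at this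

theorem twist_ld (s : ℝ) (a x : E 4) : LD 4 (twist s a) x :=
  ld_of_left_inverse (g := twist (-s) a)
    (Eventually.of_forall fun _ => (twist_smooth s a).contDiffAt)
    ((twist_smooth (-s) a).contDiffAt.differentiableAt (by simp))
    (Eventually.of_forall fun y => twist_twist s a y)

theorem twist_out {s : ℝ} {a x : E 4} (h : 1 / 8 ≤ ‖x - a‖) : twist s a x = x := by
  rw [twist, chi_zero (by nlinarith), mul_zero, rot_zero, add_sub_cancel]

theorem twist_in {s : ℝ} {a x : E 4} (h : ‖x - a‖ ≤ 1 / 16) :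
    twist s a x = a + rot s (x - a) := by
  rw [twist, chi_one (by nlinarith [norm_nonneg (x - a)]), mul_one]

/-! ### radial maps -/

/-- the factor of the radial map -/
def mm (l t : ℝ) : ℝ := 1 - (1 - l) * chi t

theorem mm_smooth (l : ℝ) : ContDiff ℝ ∞ (mm l) :=
  contDiff_const.sub (contDiff_const.mul chi_smooth)

theorem mm_mono {l : ℝ} (h1 : l ≤ 1) : Monotone (mm l) := fun a b h => by
  rw [mm, mm]
  nlinarith [chi_anti h]

theorem mm_pos {l : ℝ} (h0 : 0 < l) (h1 : l ≤ 1) (t : ℝ) : 0 < mm l t := by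
  rw [mm]
  nlinarith [chi_le t, chi_nonneg t]

theorem mm_le {l : ℝ} (h1 : l ≤ 1) (t : ℝ) : mm l t ≤ 1 := by
  rw [mm]
  nlinarith [chi_le t, chi_nonneg t]

theorem mm_in {l t : ℝ} (h : t ≤ 1 / 256) : mm l t = l := by
  rw [mm, chi_one h]; ring

theorem mm_out {l t : ℝ} (h : 1 / 64 ≤ t) : mm l t = 1 := by
  rw [mm, chi_zero h]; ring

/-- the radial map -/
def rad (l : ℝ) (v : E 4) : E 4 := mm l (‖v‖ ^ 2) • v

theorem rad_smooth (l : ℝ) : ContDiff ℝ ∞ (rad l) :=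
  ((mm_smooth l).comp (contDiff_norm_sq ℝ)).smul contDiff_id

theorem rad_norm {l : ℝ} (h0 : 0 < l) (h1 : l ≤ 1) (v : E 4) :
    ‖rad l v‖ = mm l (‖v‖ ^ 2) * ‖v‖ := by
  rw [rad, norm_smul, Real.norm_of_nonneg (mm_pos h0 h1 _).le]

theorem rad_le {l : ℝ} (h0 : 0 < l) (h1 : l ≤ 1) (v : E 4) : ‖rad l v‖ ≤ ‖v‖ := by
  rw [rad_norm h0 h1]
  nlinarith [mm_le h1 (‖v‖ ^ 2), norm_nonneg v]

theorem rad_bij {l : ℝ} (h0 : 0 < l) (h1 : l ≤ 1) : Bijective (rad l) := by
  constructor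
  · intro z z' h
    have h2 : mm l (‖z‖ ^ 2) * ‖z‖ = mm l (‖z'‖ ^ 2) * ‖z'‖ := by
      rw [← rad_norm h0 h1, ← rad_norm h0 h1, h]
    have key : ∀ a b : ℝ, 0 ≤ a → a < b → mm l (a ^ 2) * a < mm l (b ^ 2) * b := by
      intro a b ha hab
      have h3 : mm l (a ^ 2) ≤ mm l (b ^ 2) := mm_mono h1 (by nlinarith)
      have h4 := mm_pos h0 h1 (a ^ 2)
      nlinarith [mul_lt_mul_of_pos_left hab h4, mul_le_mul_of_nonneg_right h3 (ha.trans hab.le)]
    have h3 : ‖z‖ = ‖z'‖ := by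
      rcases lt_trichotomy ‖z‖ ‖z'‖ with h4 | h4 | h4
      · exact absurd h2 (key _ _ (norm_nonneg _) h4).ne
      · exact h4
      · exact absurd h2.symm (key _ _ (norm_nonneg _) h4).ne
    have h5 : mm l (‖z‖ ^ 2) • z = mm l (‖z‖ ^ 2) • z' := by
      have h6 : rad l z' = mm l (‖z‖ ^ 2) • z' := by rw [rad, h3]
      rw [← h6, ← h]; rfl
    exact smul_right_injective _ (mm_pos h0 h1 _).ne' h5
  · intro z
    by_cases hz0 : z = 0
    · exact ⟨0, by rw [hz0, rad, smul_zero]⟩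
    have hz : 0 < ‖z‖ := norm_pos_iff.2 hz0
    set T : ℝ := max ‖z‖ 1 with hT
    have hT1 : 1 ≤ T := le_max_right _ _
    have hTz : ‖z‖ ≤ T := le_max_left _ _
    have hc : Continuous fun t : ℝ => mm l (t ^ 2) * t :=
      ((mm_smooth l).continuous.comp (continuous_pow 2)).mul continuous_id
    obtain ⟨t, ht, htz⟩ : ∃ t ∈ Icc (0 : ℝ) T, mm l (t ^ 2) * t = ‖z‖ := by
      have h1 := intermediate_value_Icc (by linarith : (0 : ℝ) ≤ T) hc.continuousOn
      apply h1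
      constructor
      · show mm l (0 ^ 2) * 0 ≤ ‖z‖
        rw [mul_zero]; exact hz.le
      · show ‖z‖ ≤ mm l (T ^ 2) * T
        rw [mm_out (by nlinarith), one_mul]
        exact hTz
    have hn : ‖(t / ‖z‖) • z‖ = t := by
      rw [norm_smul, Real.norm_of_nonneg (div_nonneg ht.1 hz.le)]
      field_simp
    refine ⟨(t / ‖z‖) • z, ?_⟩
    rw [rad, hn, smul_smul, ← mul_div_assoc, htz, div_self hz.ne', one_smul]

theorem rad_ld {l : ℝ} (h0 : 0 < l) (h1 : l ≤ 1) (v : E 4) : LD 4 (rad l) v := by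
  have hd : DifferentiableAt ℝ (mm l) (‖v‖ ^ 2) :=
    (mm_smooth l).contDiffAt.differentiableAt (by simp)
  have hm' : 0 ≤ deriv (mm l) (‖v‖ ^ 2) := (mm_mono h1).deriv_nonneg
  have h2 : HasFDerivAt (fun v : E 4 => mm l (‖v‖ ^ 2))
      ((deriv (mm l) (‖v‖ ^ 2)) • (2 • innerSL ℝ v)) v := by
    have h3 := (hasStrictFDerivAt_norm_sq v).hasFDerivAt
    have h4 : HasDerivAt (mm l) (deriv (mm l) (‖v‖ ^ 2)) (‖v‖ ^ 2) := hd.hasDerivAt
    exact HasDerivAt.comp_hasFDerivAt (f := fun v : E 4 => ‖v‖ ^ 2) v h4 h3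
  have h3 : HasFDerivAt (rad l) (mm l (‖v‖ ^ 2) • ContinuousLinearMap.id ℝ (E 4) +
      ((deriv (mm l) (‖v‖ ^ 2)) • (2 • innerSL ℝ v)).smulRight v) v :=
    h2.smul (hasFDerivAt_id v)
  set L : E 4 →L[ℝ] E 4 := mm l (‖v‖ ^ 2) • ContinuousLinearMap.id ℝ (E 4) +
      ((deriv (mm l) (‖v‖ ^ 2)) • (2 • innerSL ℝ v)).smulRight v with hL
  have hLw : ∀ w, L w = mm l (‖v‖ ^ 2) • w + (deriv (mm l) (‖v‖ ^ 2) * (2 * inner ℝ v w)) • v := by
    intro w
    simp [hL]
  have hinj : Injective (L : E 4 →ₗ[ℝ] E 4) := by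
    rw [← LinearMap.ker_eq_bot, LinearMap.ker_eq_bot']
    intro w hw
    have hw' : L w = 0 := hw
    rw [hLw] at hw'
    have h4 : inner ℝ (mm l (‖v‖ ^ 2) • w + (deriv (mm l) (‖v‖ ^ 2) * (2 * inner ℝ v w)) • v) w
        = (0 : ℝ) := by
      rw [hw', inner_zero_left]
    rw [inner_add_left, real_inner_smul_left, real_inner_smul_left, real_inner_self_eq_norm_sq]
      at h4
    have h5 : mm l (‖v‖ ^ 2) * ‖w‖ ^ 2 = 0 := by
      nlinarith [mul_nonneg hm' (sq_nonneg (inner ℝ v w)),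
        mul_nonneg (mm_pos h0 h1 (‖v‖ ^ 2)).le (sq_nonneg ‖w‖)]
    rcases mul_eq_zero.1 h5 with h6 | h6
    · exact absurd h6 (mm_pos h0 h1 _).ne'
    · exact norm_eq_zero.1 (pow_eq_zero_iff (two_ne_zero) |>.1 h6)
  let A : E 4 ≃L[ℝ] E 4 := (LinearEquiv.ofInjectiveEndo
    (L : E 4 →ₗ[ℝ] E 4) hinj).toContinuousLinearEquiv
  refine LD_of_contDiffAt (Eventually.of_forall fun _ => (rad_smooth l).contDiffAt) A ?_
  have hA : (A : E 4 →L[ℝ] E 4) = L := by
    ext u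
    rfl
  rw [hA]
  exact h3

end Pool.Agent.L0h29.BL
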