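import Pool.Agent.L0h29.BL.Loc
import Pool.Agent.L0h29.BL.Rot
import Pool.Agent.N550.KH.Fin

/-!
# Project BL: the pattern
-/

set_option autoImplicit false

open Set Filter Topology Metric Function
open scoped Manifold ContDiff

noncomputable section

namespace Pool.Agent.L0h29.BL

open Pool.Agent.Y522 Pool.Agent.L0h29.CS.Sqz Pool.Agent.N550.KH

/-! ### diffeomorphisms as homeomorphisms -/

/-- `K` is a diffeomorphism -/
def Dff (K : E 4 ≃ₜ E 4) : Prop := (∀ x, LD 4 K x) ∧ ∀ y, LD 4 K.symm y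

theorem Dff.symm {K : E 4 ≃ₜ E 4} (h : Dff K) : Dff K.symm := ⟨h.2, h.1⟩

theorem Dff.trans {K L : E 4 ≃ₜ E 4} (h : Dff K) (h' : Dff L) : Dff (K.trans L) :=
  ⟨fun x => LD.comp_fun (g := L) (f := K) (h'.1 _) (h.1 x),
    fun y => LD.comp_fun (g := K.symm) (f := L.symm) (h.2 _) (h'.2 y)⟩

theorem exists_dff {κ : E 4 → E 4} (hκ : IsDf 4 κ) : ∃ K : E 4 ≃ₜ E 4, (∀ x, K x = κ x) ∧ Dff K := by
  obtain ⟨K, h1, h2, h3⟩ := Fin'.exists_homeo hκ
  exact ⟨K, h1, h2, h3⟩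

/-- conjugation -/
def cj (K γ : E 4 ≃ₜ E 4) : E 4 ≃ₜ E 4 := K.symm.trans (γ.trans K)

theorem cj_apply (K γ : E 4 ≃ₜ E 4) (x : E 4) : cj K γ x = K (γ (K.symm x)) := rfl

theorem cj_symm (K γ : E 4 ≃ₜ E 4) (x : E 4) : (cj K γ).symm x = cj K γ.symm x := rfl

theorem cj_ld {K γ : E 4 ≃ₜ E 4} (hK : Dff K) {x : E 4} (h : LD 4 γ (K.symm x)) :
    LD 4 (cj K γ) x :=
  LD.comp_fun (g := K) (f := fun x => γ (K.symm x)) (hK.1 _)
    (LD.comp_fun (g := γ) (f := K.symm) h (hK.2 x))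

/-- the inverse of a local diffeomorphism which is a homeomorphism -/
theorem symm_ld {γ : E 4 ≃ₜ E 4} {x : E 4} (h : LD 4 γ x) : LD 4 γ.symm (γ x) := by
  obtain ⟨U, hU, hUo, hxU⟩ := _root_.eventually_nhds_iff.1 h.eventually
  exact LD.inverse hUo hU (fun y _ => γ.symm_apply_apply y) hxU

theorem symm_ld' {γ : E 4 ≃ₜ E 4} {y : E 4} (h : LD 4 γ (γ.symm y)) : LD 4 γ.symm y := by
  have := symm_ld h
  rwa [γ.apply_symm_apply] at this

/-! ### coordinates -/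

theorem abs0 (x : E 4) : |x 0| ≤ ‖x‖ := by
  rw [← Real.norm_eq_abs]
  exact PiLp.norm_apply_le x 0

theorem e1_0 : e1 0 = 1 := rfl

theorem smul_e1_0 (c : ℝ) : (c • e1 : E 4) 0 = c := by
  rw [PiLp.smul_apply, e1_0, smul_eq_mul, mul_one]

theorem abs0_sub (x : E 4) (c : ℝ) : |x 0 - c| ≤ ‖x - c • e1‖ := by
  have := abs0 (x - c • e1)
  rwa [PiLp.sub_apply, smul_e1_0] at this

theorem norm_smul_e1 (c : ℝ) : ‖(c • e1 : E 4)‖ = |c| := by
  rw [norm_smul, norm_e1, mul_one, Real.norm_eq_abs]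

/-! ### the two base points -/

/-- the left point -/
def pa : E 4 := (-(7 / 8 : ℝ)) • e1

/-- the right point -/
def pb : E 4 := (7 / 8 : ℝ) • e1

theorem pa_0 : pa 0 = -(7 / 8) := smul_e1_0 _

theorem pb_0 : pb 0 = 7 / 8 := smul_e1_0 _

theorem pa_norm : ‖pa‖ = 7 / 8 := by
  rw [pa, norm_smul_e1, abs_neg, abs_of_pos (by norm_num)]

theorem pb_norm : ‖pb‖ = 7 / 8 := by
  rw [pb, norm_smul_e1, abs_of_pos (by norm_num)]

theorem pb_sub_pa : pb - pa = (7 / 4 : ℝ) • e1 := by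
  rw [pa, pb, ← sub_smul]; norm_num

theorem dist_pa_pb : ‖pb - pa‖ = 7 / 4 := by
  rw [pb_sub_pa, norm_smul_e1, abs_of_pos (by norm_num)]

/-- a point near `pb` is far from `pa` -/
theorem far_a {x : E 4} (h : ‖x - pb‖ ≤ 1 / 8) : 1 / 8 ≤ ‖x - pa‖ := by
  have h1 : ‖pb - pa‖ ≤ ‖x - pa‖ + ‖x - pb‖ := by
    have := norm_sub_le (x - pa) (x - pb)
    rwa [sub_sub_sub_cancel_left] at this
  rw [dist_pa_pb] at h1
  linarith

theorem far_b {x : E 4} (h : ‖x - pa‖ ≤ 1 / 8) : 1 / 8 ≤ ‖x - pb‖ := by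
  by_contra hcon
  have := far_a (not_le.1 hcon).le
  have h1 : ‖pb - pa‖ ≤ ‖x - pa‖ + ‖x - pb‖ := by
    have := norm_sub_le (x - pa) (x - pb)
    rwa [sub_sub_sub_cancel_left] at this
  rw [dist_pa_pb] at h1
  linarith

/-! ### the similarities and the connecting maps -/

/-- the next link -/
def tauf (l : ℝ) (x : E 4) : E 4 := ((3 + l) * (7 / 8)) • e1 + l • x

/-- scaling about `pa` -/
def scl (l : ℝ) (x : E 4) : E 4 := pa + rad l (x - pa)

/-- the connecting map -/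
def rhof (l : ℝ) (x : E 4) : E 4 :=
  (7 / 4 : ℝ) • e1 + rot Real.pi (twist Real.pi pb (twist Real.pi pa (scl l x)))

theorem scl_out {l : ℝ} {x : E 4} (h : 1 / 8 ≤ ‖x - pa‖) : scl l x = x := by
  rw [scl, rad, mm_out (by nlinarith), one_smul, add_sub_cancel]

theorem scl_in {l : ℝ} {x : E 4} (h : ‖x - pa‖ ≤ 1 / 16) : scl l x = pa + l • (x - pa) := by
  rw [scl, rad, mm_in (by nlinarith [norm_nonneg (x - pa)])]

theorem rhof_b {l : ℝ} {x : E 4} (h : ‖x - pb‖ ≤ 1 / 16) : rhof l x = x := by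
  have h1 : 1 / 8 ≤ ‖x - pa‖ := far_a (by linarith)
  rw [rhof, scl_out h1, twist_out h1, twist_in h, rot_addv, rot_pi_pi]
  have h2 : rot Real.pi pb = -pb := by rw [pb, rot_smul, rot_pi_e1, smul_neg]
  have h3 : (7 / 4 : ℝ) • e1 = pb + pb := by
    rw [pb, ← add_smul]; norm_num
  rw [h2, h3]
  abel

theorem rhof_a {l : ℝ} (hl0 : 0 < l) (hl1 : l ≤ 1) {x : E 4} (h : ‖x - pa‖ ≤ 1 / 16) :
    rhof l x = tauf l x := by
  have h1 : ‖scl l x - pa‖ ≤ 1 / 16 := by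
    rw [scl_in h, add_sub_cancel_left, norm_smul, Real.norm_of_nonneg hl0.le]
    nlinarith [norm_nonneg (x - pa)]
  have h2 : ‖twist Real.pi pa (scl l x) - pa‖ ≤ 1 / 16 := by rw [twist_norm]; exact h1
  rw [rhof, twist_out (far_b (by linarith : _ ≤ (1 : ℝ) / 8)), twist_in h1, scl_in h,
    add_sub_cancel_left, rot_addv, rot_pi_pi]
  have h3 : rot Real.pi pa = -pa := by rw [pa, rot_smul, rot_pi_e1, smul_neg]
  rw [h3, tauf, pa, smul_sub, smul_smul]
  have h4 : (7 / 4 : ℝ) • e1 + (-(-(7 / 8 : ℝ) • e1) + (l • x - (l * -(7 / 8)) • e1)) =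
      ((7 / 4 : ℝ) - (-(7 / 8)) - l * -(7 / 8)) • e1 + l • x := by
    rw [sub_smul, sub_smul]; abel
  rw [h4]
  congr 2
  ring

theorem norm_of_near_a {y : E 4} (h : ‖y - pa‖ ≤ 1 / 8) : ‖y‖ ≤ 1 := by
  have := norm_add_le (y - pa) pa
  rw [sub_add_cancel, pa_norm] at this
  linarith

theorem norm_of_near_b {y : E 4} (h : ‖y - pb‖ ≤ 1 / 8) : ‖y‖ ≤ 1 := by
  have := norm_add_le (y - pb) pb
  rw [sub_add_cancel, pb_norm] at this
  linarith

theorem rhof_norm {l : ℝ} (hl0 : 0 < l) (hl1 : l ≤ 1) {x : E 4} (h : ‖x‖ ≤ 1) :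
    ‖rhof l x - (7 / 4 : ℝ) • e1‖ ≤ 1 := by
  rw [rhof, add_sub_cancel_left, rot_norm]
  have h1 : ‖scl l x‖ ≤ 1 := by
    by_cases h2 : 1 / 8 ≤ ‖x - pa‖
    · rw [scl_out h2]; exact h
    · apply norm_of_near_a
      rw [scl, add_sub_cancel_left]
      exact (rad_le hl0 hl1 _).trans (not_le.1 h2).le
  have h3 : ‖twist Real.pi pa (scl l x)‖ ≤ 1 := by
    by_cases h2 : 1 / 8 ≤ ‖scl l x - pa‖
    · rw [twist_out h2]; exact h1
    · apply norm_of_near_a
      rw [twist_norm]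
      exact (not_le.1 h2).le
  by_cases h2 : 1 / 8 ≤ ‖twist Real.pi pa (scl l x) - pb‖
  · rw [twist_out h2]; exact h3
  · apply norm_of_near_b
    rw [twist_norm]
    exact (not_le.1 h2).le

theorem scl_df {l : ℝ} (hl0 : 0 < l) (hl1 : l ≤ 1) : IsDf 4 (scl l) := by
  have h1 : scl l = (fun y => y + pa) ∘ rad l ∘ (fun y => y + (-pa)) := by
    funext x
    show pa + rad l (x - pa) = rad l (x + -pa) + pa
    rw [← sub_eq_add_neg, add_comm]
  constructor
  · rw [h1]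
    exact (Equiv.addRight pa).bijective.comp ((rad_bij hl0 hl1).comp
      (Equiv.addRight (-pa)).bijective)
  · intro x
    rw [h1]
    exact LD.comp' (LD_add_const pa _) (LD.comp' (rad_ld hl0 hl1 _) (LD_add_const (-pa) x))

theorem rot_df : IsDf 4 (rot Real.pi) := by
  have hs : ContDiff ℝ ∞ (rot Real.pi) := by
    have h1 : ContDiff ℝ ∞ (fun x : E 4 => ((Real.pi, x) : ℝ × E 4)) :=
      contDiff_const.prodMk contDiff_id
    have h2 : rot Real.pi = (fun p : ℝ × E 4 => rot p.1 p.2) ∘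
      (fun x : E 4 => ((Real.pi, x) : ℝ × E 4)) := rfl
    rw [h2]
    exact rot_smooth.comp h1
  constructor
  · exact ⟨Function.LeftInverse.injective (g := rot Real.pi) rot_pi_pi,
      fun y => ⟨rot Real.pi y, rot_pi_pi y⟩⟩
  · intro x
    exact ld_of_left_inverse (g := rot Real.pi) (Eventually.of_forall fun _ => hs.contDiffAt)
      (hs.contDiffAt.differentiableAt (by simp)) (Eventually.of_forall fun y => rot_pi_pi y)

theorem rhof_df {l : ℝ} (hl0 : 0 < l) (hl1 : l ≤ 1) : IsDf 4 (rhof l) := by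
  have h1 : rhof l = (fun y => y + (7 / 4 : ℝ) • e1) ∘ rot Real.pi ∘ twist Real.pi pb ∘
      twist Real.pi pa ∘ scl l := by
    funext x
    show (7 / 4 : ℝ) • e1 + rot Real.pi (twist Real.pi pb (twist Real.pi pa (scl l x))) =
      rot Real.pi (twist Real.pi pb (twist Real.pi pa (scl l x))) + (7 / 4 : ℝ) • e1
    rw [add_comm]
  constructor
  · rw [h1]
    exact (Equiv.addRight _).bijective.comp (rot_df.1.comp ((twist_bij _ _).comp
      ((twist_bij _ _).comp (scl_df hl0 hl1).1)))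
  · intro x
    rw [h1]
    exact LD.comp' (LD_add_const _ _) (LD.comp' (rot_df.2 _) (LD.comp' (twist_ld _ _ _)
      (LD.comp' (twist_ld _ _ _) ((scl_df hl0 hl1).2 x))))

/-- the similarity with factor `s` and centre `c` on the axis -/
def simf (s c : ℝ) (x : E 4) : E 4 := c • e1 + s • x

theorem sim_df {s : ℝ} (hs : 0 < s) (c : ℝ) : IsDf 4 (simf s c) := by
  have hl : ∀ y, simf s⁻¹ (-(s⁻¹ * c)) (simf s c y) = y := by
    intro y
    rw [simf, simf, smul_add, smul_smul, smul_smul, inv_mul_cancel₀ hs.ne', one_smul, neg_smul]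
    abel
  have hr : ∀ y, simf s c (simf s⁻¹ (-(s⁻¹ * c)) y) = y := by
    intro y
    rw [simf, simf, smul_add, smul_smul, smul_smul, mul_inv_cancel₀ hs.ne', one_smul]
    have : s * -(s⁻¹ * c) = -c := by field_simp
    rw [this, neg_smul]
    abel
  have hsm : ∀ s c : ℝ, ContDiff ℝ ∞ (simf s c) := fun s c =>
    contDiff_const.add (contDiff_id.const_smul s)
  constructor
  · exact ⟨Function.LeftInverse.injective hl, fun y => ⟨_, hr y⟩⟩
  · intro x
    exact ld_of_left_inverse (g := simf s⁻¹ (-(s⁻¹ * c)))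
      (Eventually.of_forall fun _ => (hsm _ _).contDiffAt)
      ((hsm _ _).contDiffAt.differentiableAt (by simp)) (Eventually.of_forall hl)

end Pool.Agent.L0h29.BL
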