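import Pool.Agent.L0h29.BL.Pat

/-!
# Project BL: the pattern, second part
-/

set_option autoImplicit false

open Set Filter Topology Metric Function
open scoped Manifold ContDiff

noncomputable section

namespace Pool.Agent.L0h29.BL

open Pool.Agent.Y522 Pool.Agent.L0h29.CS.Sqz Pool.Agent.N550.KH

/-- a diffeomorphism as a homeomorphism -/
def toH {κ : E 4 → E 4} (h : IsDf 4 κ) : E 4 ≃ₜ E 4 := (exists_dff h).choose

theorem toH_apply {κ : E 4 → E 4} (h : IsDf 4 κ) (x : E 4) : toH h x = κ x :=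
  (exists_dff h).choose_spec.1 x

theorem toH_dff {κ : E 4 → E 4} (h : IsDf 4 κ) : Dff (toH h) := (exists_dff h).choose_spec.2

theorem dff_ld {K : E 4 ≃ₜ E 4} (h : Dff K) (x : E 4) : LD 4 K x := h.1 x

/-- a homeomorphism with compact support and two singular points -/
structure Core (γ : E 4 ≃ₜ E 4) : Prop where
  fa : γ pa = pa
  fb : γ pb = pb
  out : ∀ x, 1 ≤ ‖x‖ → γ x = x
  ld : ∀ x, x ≠ pa → x ≠ pb → LD 4 γ x

theorem Core.symm {γ : E 4 ≃ₜ E 4} (h : Core γ) : Core γ.symm := by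
  have ha : γ.symm pa = pa := by rw [Homeomorph.symm_apply_eq, h.fa]
  have hb : γ.symm pb = pb := by rw [Homeomorph.symm_apply_eq, h.fb]
  refine ⟨ha, hb, fun x hx => by rw [Homeomorph.symm_apply_eq, h.out x hx], fun x h1 h2 => ?_⟩
  apply symm_ld'
  apply h.ld
  · intro hcon
    rw [Homeomorph.symm_apply_eq, h.fa] at hcon
    exact h1 hcon
  · intro hcon
    rw [Homeomorph.symm_apply_eq, h.fb] at hcon
    exact h2 hcon

/-- the similarity as a homeomorphism -/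
def simH (s : ℝ) (hs : 0 < s) (c : ℝ) : E 4 ≃ₜ E 4 := toH (sim_df hs c)

theorem simH_apply (s : ℝ) (hs : 0 < s) (c : ℝ) (x : E 4) : simH s hs c x = c • e1 + s • x :=
  toH_apply _ x

theorem simH_dff (s : ℝ) (hs : 0 < s) (c : ℝ) : Dff (simH s hs c) := toH_dff _

theorem simH_symm (s : ℝ) (hs : 0 < s) (c : ℝ) (x : E 4) :
    (simH s hs c).symm x = s⁻¹ • (x - c • e1) := by
  rw [Homeomorph.symm_apply_eq, simH_apply, smul_smul, mul_inv_cancel₀ hs.ne', one_smul]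
  abel

theorem simH_symm_norm (s : ℝ) (hs : 0 < s) (c : ℝ) (x : E 4) :
    ‖(simH s hs c).symm x‖ = s⁻¹ * ‖x - c • e1‖ := by
  rw [simH_symm, norm_smul, norm_inv, Real.norm_of_nonneg hs.le]

theorem simH_out (s : ℝ) (hs : 0 < s) (c : ℝ) {γ : E 4 ≃ₜ E 4} (hγ : ∀ x, 1 ≤ ‖x‖ → γ x = x)
    {x : E 4} (h : s ≤ ‖x - c • e1‖) : cj (simH s hs c) γ x = x := by
  rw [cj_apply, hγ, Homeomorph.apply_symm_apply]
  rw [simH_symm_norm, le_inv_mul_iff₀ hs, mul_one]
  exact h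

/-- the connecting map as a homeomorphism -/
def rhoH (l : ℝ) (h0 : 0 < l) (h1 : l ≤ 1) : E 4 ≃ₜ E 4 := toH (rhof_df h0 h1)

theorem rhoH_apply (l : ℝ) (h0 : 0 < l) (h1 : l ≤ 1) (x : E 4) : rhoH l h0 h1 x = rhof l x :=
  toH_apply _ x

theorem rhoH_dff (l : ℝ) (h0 : 0 < l) (h1 : l ≤ 1) : Dff (rhoH l h0 h1) := toH_dff _

theorem rhoH_b (l : ℝ) (h0 : 0 < l) (h1 : l ≤ 1) {x : E 4} (h : ‖x - pb‖ ≤ 1 / 16) :
    rhoH l h0 h1 x = x := by rw [rhoH_apply, rhof_b h]

theorem rhoH_a (l : ℝ) (h0 : 0 < l) (h1 : l ≤ 1) {x : E 4} (h : ‖x - pa‖ ≤ 1 / 16) :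
    rhoH l h0 h1 x = ((3 + l) * (7 / 8)) • e1 + l • x := by rw [rhoH_apply, rhof_a h0 h1 h]; rfl

theorem rhoH_out (l : ℝ) (h0 : 0 < l) (h1 : l ≤ 1) {γ : E 4 ≃ₜ E 4}
    (hγ : ∀ x, 1 ≤ ‖x‖ → γ x = x) {x : E 4} (h : 1 < ‖x - (7 / 4 : ℝ) • e1‖) :
    cj (rhoH l h0 h1) γ x = x := by
  rw [cj_apply, hγ, Homeomorph.apply_symm_apply]
  by_contra hcon
  have h2 := rhof_norm h0 h1 (not_le.1 hcon).le
  rw [← rhoH_apply l h0 h1, Homeomorph.apply_symm_apply] at h2
  linarith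

/-- the pattern -/
def pat (l : ℝ) (h0 : 0 < l) (h1 : l ≤ 1) (γ : E 4 ≃ₜ E 4) : E 4 ≃ₜ E 4 :=
  (cj (rhoH l h0 h1) γ.symm).trans ((cj (simH l h0 ((3 + l) * (7 / 8))) γ).trans γ)

theorem pat_apply (l : ℝ) (h0 : 0 < l) (h1 : l ≤ 1) (γ : E 4 ≃ₜ E 4) (x : E 4) :
    pat l h0 h1 γ x =
      γ (cj (simH l h0 ((3 + l) * (7 / 8))) γ (cj (rhoH l h0 h1) γ.symm x)) := rfl

theorem le_norm_of_le (x : E 4) (c r : ℝ) (h : r ≤ |x 0 - c|) : r ≤ ‖x - c • e1‖ :=
  h.trans (abs0_sub x c)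

theorem pat_ld (l : ℝ) (h0 : 1 / 4 ≤ l) (h1 : l ≤ 1) (h0' : 0 < l) {γ : E 4 ≃ₜ E 4}
    (hγ : Core γ) {x : E 4} (hx1 : -(7 / 8) < x 0)
    (hx2 : x 0 < (3 + l) * (7 / 8) + l * (7 / 8)) : LD 4 (pat l h0' h1 γ) x := by
  set v : ℝ := (3 + l) * (7 / 8) with hv
  set τ := simH l h0' v with hτ
  set ρ := rhoH l h0' h1 with hρ
  have hτa : ∀ y, τ y = v • e1 + l • y := fun y => simH_apply _ _ _ _
  have hγs := hγ.symm
  have hc1 : Continuous γ.symm := γ.symm.continuous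
  by_cases hxb : x = pb
  · -- near `pb`
    subst hxb
    refine LD.congr (LD.id pb) ?_
    have e1' : ∀ᶠ y in 𝓝 pb, ‖y - pb‖ < 1 / 16 := by
      filter_upwards [ball_mem_nhds pb (by norm_num : (0 : ℝ) < 1 / 16)] with y hy
      rwa [← dist_eq_norm]
    have e2' : ∀ᶠ y in 𝓝 pb, ‖γ.symm y - pb‖ < 1 / 16 := by
      have h2 : Tendsto γ.symm (𝓝 pb) (𝓝 pb) := by
        have := hc1.tendsto pb
        rwa [hγs.fb] at this
      exact h2.eventually e1'
    filter_upwards [e1', e2'] with y hy1 hy2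
    have h3 : ρ.symm y = y := by
      rw [Homeomorph.symm_apply_eq, hρ, rhoH_b _ _ _ hy1.le]
    have h4 : cj ρ γ.symm y = γ.symm y := by
      rw [cj_apply, h3, hρ, rhoH_b _ _ _ hy2.le]
    have h5 : cj τ γ (γ.symm y) = γ.symm y := by
      apply simH_out l h0' v hγ.out
      apply le_norm_of_le
      have h6 : |(γ.symm y - pb) 0| ≤ ‖γ.symm y - pb‖ := abs0 _
      rw [PiLp.sub_apply, pb_0] at h6
      have h7 := abs_le.1 (h6.trans hy2.le)
      rw [abs_sub_comm, le_abs]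
      left
      rw [hv]
      linarith [h7.2]
    rw [pat_apply, h4, h5, Homeomorph.apply_symm_apply]
  have ht0 : (v • e1 + l • pa : E 4) 0 = 21 / 8 := by
    rw [PiLp.add_apply, PiLp.smul_apply, PiLp.smul_apply, e1_0, pa_0, hv]
    simp only [smul_eq_mul]
    ring
  by_cases hxa : x = τ pa
  · -- near `τ pa`
    subst hxa
    refine LD.congr (LD.id (τ pa)) ?_
    have e1' : ∀ᶠ u in 𝓝 pa, ‖u - pa‖ < 1 / 16 := by
      filter_upwards [ball_mem_nhds pa (by norm_num : (0 : ℝ) < 1 / 16)] with y hy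
      rwa [← dist_eq_norm]
    have e2' : ∀ᶠ u in 𝓝 pa, ‖γ.symm u - pa‖ < 1 / 16 := by
      have h2 : Tendsto γ.symm (𝓝 pa) (𝓝 pa) := by
        have := hc1.tendsto pa
        rwa [hγs.fa] at this
      exact h2.eventually e1'
    have h2 : Tendsto τ.symm (𝓝 (τ pa)) (𝓝 pa) := by
      have := τ.symm.continuous.tendsto (τ pa)
      rwa [Homeomorph.symm_apply_apply] at this
    have e3' : ∀ᶠ y in 𝓝 (τ pa), 1 < y 0 := by
      have hc : Continuous fun y : E 4 => y 0 := by fun_prop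
      apply hc.continuousAt.eventually
      apply lt_mem_nhds
      show 1 < (τ pa) 0
      rw [hτa, ht0]; norm_num
    filter_upwards [h2.eventually e1', h2.eventually e2', e3'] with y hy1 hy2 hy3
    have h3 : ρ.symm y = τ.symm y := by
      rw [Homeomorph.symm_apply_eq, hρ, rhoH_a _ _ _ hy1.le, ← hτa, Homeomorph.apply_symm_apply]
    have h4 : cj ρ γ.symm y = τ (γ.symm (τ.symm y)) := by
      rw [cj_apply, h3, hρ, rhoH_a _ _ _ hy2.le, hτa]
    have h5 : cj τ γ (τ (γ.symm (τ.symm y))) = y := by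
      rw [cj_apply, Homeomorph.symm_apply_apply, Homeomorph.apply_symm_apply,
        Homeomorph.apply_symm_apply]
    rw [pat_apply, h4, h5, hγ.out]
    have := abs0 y
    rw [abs_of_pos (by linarith)] at this
    linarith
  -- the general case
  set y := cj ρ γ.symm x with hy
  have hρb : ρ pb = pb := by rw [hρ]; exact rhoH_b _ _ _ (by rw [sub_self, norm_zero]; norm_num)
  have hρa : ρ pa = τ pa := by
    rw [hρ, rhoH_a _ _ _ (by rw [sub_self, norm_zero]; norm_num), hτa]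
  have hld1 : LD 4 (cj ρ γ.symm) x := by
    apply cj_ld (rhoH_dff _ _ _)
    apply hγs.ld
    · intro hcon
      rw [Homeomorph.symm_apply_eq, hρa] at hcon
      exact hxa hcon
    · intro hcon
      rw [Homeomorph.symm_apply_eq, hρb] at hcon
      exact hxb hcon
  -- fixed points of the first map
  have hf_ta : cj ρ γ.symm (τ pa) = τ pa := by
    rw [cj_apply, ← hρa, Homeomorph.symm_apply_apply, hγs.fa]
  have hf_b : cj ρ γ.symm pb = pb := by
    conv_lhs => rw [← hρb]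
    rw [cj_apply, Homeomorph.symm_apply_apply, hγs.fb, hρb]
  have htb0 : (v • e1 + l • pb : E 4) 0 = v + l * (7 / 8) := by
    rw [PiLp.add_apply, PiLp.smul_apply, PiLp.smul_apply, e1_0, pb_0]
    simp only [smul_eq_mul]
    ring
  have hf_tb : cj ρ γ.symm (τ pb) = τ pb := by
    apply rhoH_out l h0' h1 hγs.out
    refine lt_of_lt_of_le ?_ (abs0_sub _ _)
    rw [hτa, htb0, lt_abs]
    left
    rw [hv]; linarith
  have hf_a : cj ρ γ.symm pa = pa := by
    apply rhoH_out l h0' h1 hγs.out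
    refine lt_of_lt_of_le ?_ (abs0_sub _ _)
    rw [pa_0, lt_abs]
    right
    norm_num
  have hyta : y ≠ τ pa := fun hcon => hxa ((cj ρ γ.symm).injective (hcon.trans hf_ta.symm))
  have hytb : y ≠ τ pb := fun hcon => by
    have h2 := (cj ρ γ.symm).injective (hcon.trans hf_tb.symm)
    rw [h2, hτa, htb0] at hx2
    exact lt_irrefl _ hx2
  have hyb : y ≠ pb := fun hcon => hxb ((cj ρ γ.symm).injective (hcon.trans hf_b.symm))
  have hya : y ≠ pa := fun hcon => by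
    have h2 := (cj ρ γ.symm).injective (hcon.trans hf_a.symm)
    rw [h2, pa_0] at hx1
    exact lt_irrefl _ hx1
  have hld2 : LD 4 (cj τ γ) y := by
    apply cj_ld (simH_dff _ _ _)
    apply hγ.ld
    · intro hcon
      rw [Homeomorph.symm_apply_eq] at hcon
      exact hyta hcon
    · intro hcon
      rw [Homeomorph.symm_apply_eq] at hcon
      exact hytb hcon
  have hg_a : cj τ γ pa = pa := by
    apply simH_out l h0' v hγ.out
    apply le_norm_of_le
    rw [pa_0, le_abs]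
    right
    rw [hv]; linarith
  have hg_b : cj τ γ pb = pb := by
    apply simH_out l h0' v hγ.out
    apply le_norm_of_le
    rw [pb_0, le_abs]
    right
    rw [hv]; linarith
  have hld3 : LD 4 γ (cj τ γ y) := by
    apply hγ.ld
    · exact fun hcon => hya ((cj τ γ).injective (hcon.trans hg_a.symm))
    · exact fun hcon => hyb ((cj τ γ).injective (hcon.trans hg_b.symm))
  exact LD.comp_fun (g := γ) (f := fun x => cj τ γ (cj ρ γ.symm x)) hld3
    (LD.comp_fun (g := cj τ γ) (f := cj ρ γ.symm) hld2 hld1)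

theorem pat_out (l : ℝ) (h1 : l ≤ 1) (h0' : 0 < l) {γ : E 4 ≃ₜ E 4}
    (hγ : Core γ) {x : E 4} (hx : 5 ≤ ‖x‖) : pat l h0' h1 γ x = x := by
  have h2 : cj (rhoH l h0' h1) γ.symm x = x := by
    apply rhoH_out l h0' h1 hγ.symm.out
    have := norm_sub_norm_le x ((7 / 4 : ℝ) • e1)
    rw [norm_smul_e1, abs_of_pos (by norm_num)] at this
    linarith
  have h3 : cj (simH l h0' ((3 + l) * (7 / 8))) γ x = x := by
    apply simH_out l h0' _ hγ.out
    have := norm_sub_norm_le x (((3 + l) * (7 / 8)) • e1)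
    rw [norm_smul_e1, abs_of_pos (by positivity)] at this
    linarith
  rw [pat_apply, h2, h3, hγ.out x (by linarith)]

/-- uniform bi-Lipschitz constants -/
theorem pat_unif (l : ℝ) (h0 : 1 / 4 ≤ l) (h1 : l ≤ 1) (h0' : 0 < l) {γ : E 4 ≃ₜ E 4}
    (hγ : Core γ) : ∃ C : ℝ, 1 ≤ C ∧ ∀ x : E 4, -(1 / 4) ≤ x 0 →
      x 0 ≤ (3 + l) * (7 / 8) + l * (1 / 4) → LB C (pat l h0' h1 γ) x := by
  have hc : Continuous fun y : E 4 => y 0 := by fun_prop
  have hK : IsCompact (closedBall (0 : E 4) 6 ∩ {x : E 4 | -(1 / 4) ≤ x 0 ∧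
      x 0 ≤ (3 + l) * (7 / 8) + l * (1 / 4)}) := by
    refine (isCompact_closedBall _ _).inter_right ?_
    exact (isClosed_le continuous_const hc).inter (isClosed_le hc continuous_const)
  obtain ⟨C, hC1, hC⟩ := LB.uniform (f := pat l h0' h1 γ) hK (fun x hx =>
    pat_ld l h0 h1 h0' hγ (by linarith [hx.2.1]) (by nlinarith [hx.2.2]))
  refine ⟨C, hC1, fun x hx1 hx2 => ?_⟩
  by_cases hx : ‖x‖ ≤ 6
  · exact hC x ⟨mem_closedBall_zero_iff.2 hx, hx1, hx2⟩
  · refine (LB.congr (LB.id x) ?_).mono hC1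
    have h2 : ∀ᶠ y in 𝓝 x, 5 < ‖y‖ := by
      apply continuous_norm.continuousAt.eventually
      exact lt_mem_nhds (by linarith [not_le.1 hx])
    filter_upwards [h2] with y hy
    exact pat_out l h1 h0' hγ hy.le

end Pool.Agent.L0h29.BL
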