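import Pool.Agent.L0h29.BL.Pat2

/-!
# Project BL: infinite products of homeomorphisms with disjoint supports
-/

set_option autoImplicit false

open Set Filter Topology Metric Function
open scoped Manifold ContDiff

noncomputable section

namespace Pool.Agent.L0h29.BL

open Pool.Agent.Y522 Pool.Agent.N550.KH

/-- a sequence of homeomorphisms with disjoint supports converging to `z` -/
structure Fam (θ : ℕ → E 4 ≃ₜ E 4) (K : ℕ → Set (E 4)) (z : E 4) : Prop where
  closed : ∀ i, IsClosed (K i)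
  out : ∀ i x, x ∉ K i → θ i x = x
  disj : ∀ i j, i ≠ j → Disjoint (K i) (K j)
  notMem : ∀ i, z ∉ K i
  conv : ∀ ε : ℝ, 0 < ε → ∃ m : ℕ, ∀ i, m ≤ i → K i ⊆ ball z ε

variable {θ : ℕ → E 4 ≃ₜ E 4} {K : ℕ → Set (E 4)} {z : E 4}

theorem Fam.mem (h : Fam θ K z) {i : ℕ} {x : E 4} (hx : x ∈ K i) : θ i x ∈ K i := by
  by_contra hcon
  have h1 := h.out i _ hcon
  have h2 := (θ i).injective h1
  rw [h2] at hcon
  exact hcon hx

theorem Fam.symm (h : Fam θ K z) : Fam (fun i => (θ i).symm) K z := by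
  refine ⟨h.closed, fun i x hx => ?_, h.disj, h.notMem, h.conv⟩
  show (θ i).symm x = x
  rw [Homeomorph.symm_apply_eq, h.out i x hx]

open Classical in
/-- the product -/
def pr (θ : ℕ → E 4 ≃ₜ E 4) (K : ℕ → Set (E 4)) (x : E 4) : E 4 :=
  if h : ∃ i, x ∈ K i then θ h.choose x else x

theorem Fam.pr_mem (h : Fam θ K z) {i : ℕ} {x : E 4} (hx : x ∈ K i) : pr θ K x = θ i x := by
  have hex : ∃ i, x ∈ K i := ⟨i, hx⟩
  rw [pr, dif_pos hex]
  have h1 : hex.choose = i := by
    by_contra hne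
    exact disjoint_left.1 (h.disj _ _ hne) hex.choose_spec hx
  rw [h1]

theorem pr_out {x : E 4} (hx : ∀ i, x ∉ K i) : pr θ K x = x := by
  rw [pr, dif_neg]
  rintro ⟨i, hi⟩
  exact hx i hi

theorem Fam.pr_z (h : Fam θ K z) : pr θ K z = z := pr_out h.notMem

theorem Fam.pr_inv (h : Fam θ K z) (x : E 4) : pr (fun i => (θ i).symm) K (pr θ K x) = x := by
  by_cases hx : ∃ i, x ∈ K i
  · obtain ⟨i, hi⟩ := hx
    rw [h.pr_mem hi, h.symm.pr_mem (h.mem hi)]
    exact (θ i).symm_apply_apply x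
  · push Not at hx
    rw [pr_out hx, pr_out hx]

/-- near a point different from `z` at most one factor is relevant -/
theorem Fam.near (h : Fam θ K z) {x : E 4} (hx : x ≠ z) :
    (∃ i, ∀ᶠ y in 𝓝 x, ∀ j, j ≠ i → y ∉ K j) := by
  have hε : 0 < ‖x - z‖ / 2 := by
    have := norm_pos_iff.2 (sub_ne_zero.2 hx)
    linarith
  obtain ⟨m, hm⟩ := h.conv _ hε
  have h1 : ∀ᶠ y in 𝓝 x, ∀ j, m ≤ j → y ∉ K j := by
    filter_upwards [ball_mem_nhds x hε] with y hy j hj hyj
    have h2 := hm j hj hyj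
    rw [mem_ball, dist_eq_norm] at hy h2
    have h3 : ‖x - z‖ ≤ ‖y - x‖ + ‖y - z‖ := by
      have := norm_sub_le (y - z) (y - x)
      rw [sub_sub_sub_cancel_left] at this
      linarith
    linarith
  by_cases hex : ∃ i, x ∈ K i
  · obtain ⟨i, hi⟩ := hex
    refine ⟨i, ?_⟩
    have h2 : ∀ᶠ y in 𝓝 x, ∀ j ∈ Finset.range m, j ≠ i → y ∉ K j := by
      rw [Filter.eventually_all_finset]
      intro j _
      by_cases hji : j = i
      · exact Eventually.of_forall fun y hne => absurd hji hne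
      · have h3 : x ∉ K j := fun hcon => disjoint_left.1 (h.disj _ _ hji) hcon hi
        filter_upwards [(h.closed j).isOpen_compl.mem_nhds h3] with y hy _
        exact hy
    filter_upwards [h1, h2] with y hy1 hy2 j hj
    by_cases hjm : m ≤ j
    · exact hy1 j hjm
    · exact hy2 j (Finset.mem_range.2 (not_le.1 hjm)) hj
  · push Not at hex
    refine ⟨0, ?_⟩
    have h2 : ∀ᶠ y in 𝓝 x, ∀ j ∈ Finset.range m, y ∉ K j := by
      rw [Filter.eventually_all_finset]
      intro j _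
      exact (h.closed j).isOpen_compl.mem_nhds (hex j)
    filter_upwards [h1, h2] with y hy1 hy2 j _
    by_cases hjm : m ≤ j
    · exact hy1 j hjm
    · exact hy2 j (Finset.mem_range.2 (not_le.1 hjm))

theorem Fam.pr_one (h : Fam θ K z) {i : ℕ} {x : E 4} (hx : ∀ j, j ≠ i → x ∉ K j) :
    pr θ K x = θ i x := by
  by_cases hi : x ∈ K i
  · exact h.pr_mem hi
  · rw [pr_out, h.out i x hi]
    intro j
    by_cases hj : j = i
    · rw [hj]; exact hi
    · exact hx j hj

theorem Fam.cont (h : Fam θ K z) : Continuous (pr θ K) := by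
  rw [continuous_iff_continuousAt]
  intro x
  by_cases hx : x = z
  · subst hx
    rw [Metric.continuousAt_iff]
    intro ε hε
    obtain ⟨m, hm⟩ := h.conv ε hε
    have h2 : ∀ᶠ y in 𝓝 x, ∀ j ∈ Finset.range m, y ∉ K j := by
      rw [Filter.eventually_all_finset]
      intro j _
      exact (h.closed j).isOpen_compl.mem_nhds (h.notMem j)
    obtain ⟨δ, hδ, hδ'⟩ := Metric.eventually_nhds_iff.1 (h2.and (ball_mem_nhds x hε))
    refine ⟨δ, hδ, fun y hy => ?_⟩
    obtain ⟨h3, h4⟩ := hδ' hy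
    rw [h.pr_z]
    by_cases hex : ∃ i, y ∈ K i
    · obtain ⟨i, hi⟩ := hex
      have him : m ≤ i := by
        by_contra hcon
        exact h3 i (Finset.mem_range.2 (not_le.1 hcon)) hi
      rw [h.pr_mem hi]
      exact hm i him (h.mem hi)
    · push Not at hex
      rw [pr_out hex]
      exact h4
  · obtain ⟨i, hi⟩ := h.near hx
    have h1 : (θ i) =ᶠ[𝓝 x] pr θ K := by
      filter_upwards [hi] with y hy
      exact (h.pr_one hy).symm
    exact (θ i).continuous.continuousAt.congr h1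

/-- the product as a homeomorphism -/
def prH (h : Fam θ K z) : E 4 ≃ₜ E 4 where
  toFun := pr θ K
  invFun := pr (fun i => (θ i).symm) K
  left_inv := h.pr_inv
  right_inv := fun x => by
    have := h.symm.pr_inv x
    exact this
  continuous_toFun := h.cont
  continuous_invFun := h.symm.cont

theorem prH_one (h : Fam θ K z) {i : ℕ} {x : E 4} (hx : ∀ j, j ≠ i → x ∉ K j) :
    prH h x = θ i x := h.pr_one hx

theorem prH_symm_one (h : Fam θ K z) {i : ℕ} {x : E 4} (hx : ∀ j, j ≠ i → x ∉ K j) :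
    (prH h).symm x = (θ i).symm x := h.symm.pr_one hx

theorem prH_out (h : Fam θ K z) {x : E 4} (hx : ∀ i, x ∉ K i) : prH h x = x := pr_out hx

theorem prH_symm_out (h : Fam θ K z) {x : E 4} (hx : ∀ i, x ∉ K i) : (prH h).symm x = x := by
  show pr (fun i => (θ i).symm) K x = x
  exact pr_out hx

theorem Fam.pr_two (h : Fam θ K z) {i i' : ℕ} (hii : i ≠ i') {x : E 4}
    (hx : ∀ j, j ≠ i → j ≠ i' → x ∉ K j) : pr θ K x = θ i (θ i' x) := by
  by_cases hi : x ∈ K i'
  · have h1 : θ i' x ∈ K i' := h.mem hi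
    have h2 : θ i' x ∉ K i := fun hcon => disjoint_left.1 (h.disj _ _ hii) hcon h1
    rw [h.out i _ h2, h.pr_mem hi]
  · rw [h.out i' _ hi]
    apply h.pr_one
    intro j hj
    by_cases hj' : j = i'
    · rw [hj']; exact hi
    · exact hx j hj hj'

theorem prH_two (h : Fam θ K z) {i i' : ℕ} (hii : i ≠ i') {x : E 4}
    (hx : ∀ j, j ≠ i → j ≠ i' → x ∉ K j) : prH h x = θ i (θ i' x) := h.pr_two hii hx

end Pool.Agent.L0h29.BL
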