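import Mathlib

/-!
# Project BL: the sequence of scales and centres
-/

set_option autoImplicit false

open Set Filter Topology Metric Function

noncomputable section

namespace Pool.Agent.L0h29.BL

/-- the scales -/
def sc (i : ℕ) : ℝ := (1 / 4) ^ Nat.log 2 (i + 1)

theorem sc_pos (i : ℕ) : 0 < sc i := by unfold sc; positivity

theorem sc_zero : sc 0 = 1 := by simp [sc]

theorem log_succ (i : ℕ) : Nat.log 2 (i + 2) = Nat.log 2 (i + 1) ∨
    Nat.log 2 (i + 2) = Nat.log 2 (i + 1) + 1 := by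
  have h1 : Nat.log 2 (i + 1) ≤ Nat.log 2 (i + 2) := Nat.log_mono_right (by omega)
  have h2 : Nat.log 2 (i + 2) < Nat.log 2 (i + 1) + 2 := by
    apply Nat.log_lt_of_lt_pow (by omega)
    have h3 := Nat.lt_pow_succ_log_self (b := 2) (by norm_num) (i + 1)
    rw [Nat.succ_eq_add_one] at h3
    calc i + 2 ≤ 2 * (i + 1) := by omega
      _ < 2 * 2 ^ (Nat.log 2 (i + 1) + 1) := by omega
      _ = 2 ^ (Nat.log 2 (i + 1) + 2) := by ring
  omega

theorem sc_ratio (i : ℕ) : sc (i + 1) = sc i ∨ sc (i + 1) = 1 / 4 * sc i := by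
  rcases log_succ i with h | h
  · left
    show (1 / 4 : ℝ) ^ Nat.log 2 (i + 2) = _
    rw [h]; rfl
  · right
    show (1 / 4 : ℝ) ^ Nat.log 2 (i + 2) = _
    rw [h, pow_succ, mul_comm]; rfl

theorem sc_succ_le (i : ℕ) : sc (i + 1) ≤ sc i := by
  have := sc_pos i
  rcases sc_ratio i with h | h <;> linarith

theorem sc_le (i : ℕ) : sc i ≤ 4 * sc (i + 1) := by
  have := sc_pos i
  rcases sc_ratio i with h | h <;> linarith

theorem sc_le_one (i : ℕ) : sc i ≤ 1 := by
  induction i with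
  | zero => rw [sc_zero]
  | succ i ih => exact (sc_succ_le i).trans ih

theorem sc_eq (i : ℕ) : sc i = ((2 : ℝ) ^ Nat.log 2 (i + 1))⁻¹ ^ 2 := by
  rw [sc, ← inv_pow, ← pow_mul, mul_comm, pow_mul]
  norm_num

theorem sc_low (i : ℕ) : 1 / ((i : ℝ) + 1) ^ 2 ≤ sc i := by
  have h1 := Nat.pow_log_le_self 2 (show i + 1 ≠ 0 by omega)
  have h2 : (2 : ℝ) ^ Nat.log 2 (i + 1) ≤ (i : ℝ) + 1 := by exact_mod_cast h1
  have h3 : (0 : ℝ) < 2 ^ Nat.log 2 (i + 1) := by positivity
  rw [sc_eq, inv_pow, one_div]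
  apply inv_anti₀ (by positivity)
  exact pow_le_pow_left₀ h3.le h2 2

theorem sc_up (i : ℕ) : sc i ≤ 4 / ((i : ℝ) + 1) ^ 2 := by
  have h1 := Nat.lt_pow_succ_log_self (b := 2) (by norm_num) (i + 1)
  rw [Nat.succ_eq_add_one] at h1
  have h2 : (i : ℝ) + 1 ≤ 2 * 2 ^ Nat.log 2 (i + 1) := by
    have h3 : i + 1 ≤ 2 * 2 ^ Nat.log 2 (i + 1) := by
      rw [pow_succ] at h1; omega
    exact_mod_cast h3
  have h3 : (0 : ℝ) < 2 ^ Nat.log 2 (i + 1) := by positivity
  rw [sc_eq, inv_pow, le_div_iff₀ (by positivity), inv_mul_le_iff₀ (by positivity)]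
  nlinarith [pow_le_pow_left₀ (by positivity : (0 : ℝ) ≤ (i : ℝ) + 1) h2 2]

theorem sc_summable : Summable sc := by
  have h1 : Summable (fun i : ℕ => 4 * (1 / ((i : ℝ) + 1) ^ 2)) := by
    apply Summable.mul_left
    have h2 : Summable (fun i : ℕ => 1 / ((i : ℝ)) ^ 2) :=
      Real.summable_one_div_nat_pow.2 (by norm_num)
    have h3 := (summable_nat_add_iff 1).2 h2
    refine h3.congr fun i => ?_
    push_cast
    rfl
  refine Summable.of_nonneg_of_le (fun i => (sc_pos i).le) (fun i => ?_) h1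
  rw [mul_one_div]
  exact sc_up i

/-- the increments of the centres -/
def inc (i : ℕ) : ℝ := 7 / 8 * (3 * sc i + sc (i + 1))

theorem inc_summable : Summable inc := by
  apply Summable.mul_left
  exact (sc_summable.mul_left 3).add ((summable_nat_add_iff 1).2 sc_summable)

/-- the centres -/
def cen (i : ℕ) : ℝ := ∑ j ∈ Finset.range i, inc j

/-- the limit -/
def lim : ℝ := ∑' j, inc j

theorem cen_zero : cen 0 = 0 := by simp [cen]

theorem cen_succ (i : ℕ) : cen (i + 1) = cen i + 7 / 8 * (3 * sc i + sc (i + 1)) := by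
  rw [cen, Finset.sum_range_succ]; rfl

theorem cen_tendsto : Tendsto cen atTop (𝓝 lim) :=
  inc_summable.hasSum.tendsto_sum_nat

theorem cen_mono : Monotone cen := by
  apply monotone_nat_of_le_succ
  intro i
  rw [cen_succ]
  linarith [sc_pos i, sc_pos (i + 1)]

theorem cen_lt_lim (i : ℕ) : cen i < lim := by
  have h1 : cen (i + 1) ≤ lim := cen_mono.ge_of_tendsto cen_tendsto _
  rw [cen_succ] at h1
  linarith [sc_pos i, sc_pos (i + 1)]

/-- lower bound for the distance to the limit -/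
theorem sum_low (i k : ℕ) : sc (i + 1) + (k : ℝ) * (1 / ((i : ℝ) + 1 + (k + 1)) ^ 2) ≤
    cen (i + 1 + (k + 1)) - cen (i + 1) := by
  have h1 : ∀ k : ℕ, sc (i + 1) + ∑ j ∈ Finset.range k, sc (i + 1 + j + 1) ≤
      cen (i + 1 + (k + 1)) - cen (i + 1) := by
    intro k
    induction k with
    | zero =>
      rw [Finset.sum_range_zero, cen_succ]
      have := sc_pos (i + 1)
      have := sc_pos (i + 1 + 1)
      simp only [zero_add, add_zero]
      linarith
    | succ k ih =>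
      rw [Finset.sum_range_succ]
      have h2 : cen (i + 1 + (k + 1 + 1)) = cen (i + 1 + (k + 1)) +
          7 / 8 * (3 * sc (i + 1 + (k + 1)) + sc (i + 1 + (k + 1) + 1)) := cen_succ _
      have h3 := sc_pos (i + 1 + (k + 1))
      have h4 := sc_pos (i + 1 + (k + 1) + 1)
      have h5 : sc (i + 1 + k + 1) = sc (i + 1 + (k + 1)) := rfl
      rw [h2, h5]
      linarith
  refine le_trans ?_ (h1 k)
  have h2 : (k : ℝ) * (1 / ((i : ℝ) + 1 + (k + 1)) ^ 2) ≤
      ∑ j ∈ Finset.range k, sc (i + 1 + j + 1) := by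
    have h3 : ∑ j ∈ Finset.range k, (1 / ((i : ℝ) + 1 + (k + 1)) ^ 2) ≤
        ∑ j ∈ Finset.range k, sc (i + 1 + j + 1) := by
      apply Finset.sum_le_sum
      intro j hj
      rw [Finset.mem_range] at hj
      refine le_trans ?_ (sc_low (i + 1 + j + 1))
      apply one_div_le_one_div_of_le
      · positivity
      · have : (j : ℝ) + 1 ≤ k := by exact_mod_cast hj
        push_cast
        apply pow_le_pow_left₀ (by positivity)
        linarith
    rwa [Finset.sum_const, Finset.card_range, nsmul_eq_mul] at h3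
  linarith

theorem gap (i : ℕ) : 1 / (4 * ((i : ℝ) + 2)) ≤ lim - cen (i + 1) - sc (i + 1) := by
  have h1 := sum_low i (i + 2)
  have h2 : cen (i + 1 + (i + 2 + 1)) ≤ lim := cen_mono.ge_of_tendsto cen_tendsto _
  have h3 : 1 / (4 * ((i : ℝ) + 2)) ≤
      ((i + 2 : ℕ) : ℝ) * (1 / ((i : ℝ) + 1 + (((i + 2 : ℕ) : ℝ) + 1)) ^ 2) := by
    push_cast
    rw [mul_one_div, div_le_div_iff₀ (by positivity) (by positivity)]
    have : (0 : ℝ) ≤ i := Nat.cast_nonneg i
    nlinarith
  linarith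

/-- the scales are small compared to the distance to the limit -/
theorem sc_gap (i : ℕ) : sc i ≤ 32 / ((i : ℝ) + 1) * (lim - cen (i + 1) - sc (i + 1)) := by
  have h1 := gap i
  have h2 := sc_up i
  have h0 : (0 : ℝ) ≤ i := Nat.cast_nonneg i
  calc sc i ≤ 4 / ((i : ℝ) + 1) ^ 2 := h2
    _ ≤ 32 / ((i : ℝ) + 1) * (1 / (4 * ((i : ℝ) + 2))) := by
        rw [div_mul_div_comm, mul_one, div_le_div_iff₀ (by positivity) (by positivity)]
        nlinarith
    _ ≤ _ := mul_le_mul_of_nonneg_left h1 (by positivity)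

end Pool.Agent.L0h29.BL
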