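import Pool.Agent.L0h29.BL.Prod
import Pool.Agent.L0h29.BL.Seq

/-!
# Project BL: the swindle
-/

set_option autoImplicit false

open Set Filter Topology Metric Function
open scoped Manifold ContDiff

noncomputable section

namespace Pool.Agent.L0h29.BL

open Pool.Agent.Y522 Pool.Agent.N550.KH

/-! ### inequalities for the sequences -/

/-- the ratios -/
def rt (i : ℕ) : ℝ := sc (i + 1) / sc i

theorem rt_pos (i : ℕ) : 0 < rt i := div_pos (sc_pos _) (sc_pos _)

theorem rt_le (i : ℕ) : rt i ≤ 1 := (div_le_one (sc_pos i)).2 (sc_succ_le i)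

theorem rt_cases (i : ℕ) : rt i = 1 ∨ rt i = 1 / 4 := by
  rcases sc_ratio i with h | h
  · left; rw [rt, h, div_self (sc_pos i).ne']
  · right; rw [rt, h, mul_div_cancel_right₀ _ (sc_pos i).ne']

theorem sc_rt (i : ℕ) : sc i * rt i = sc (i + 1) := by
  rw [rt]; field_simp [(sc_pos i).ne']

theorem cen_rt (i : ℕ) : cen i + sc i * ((3 + rt i) * (7 / 8)) = cen (i + 1) := by
  rw [cen_succ]
  have := sc_rt i
  linear_combination (7 / 8) * this

/-- right ends of the links of the first kind -/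
theorem tau_lt {i j : ℕ} (h : i < j) : cen i + sc i < cen j - sc j := by
  have key : ∀ j, cen (i + 1) - sc (i + 1) ≤ cen (i + 1 + j) - sc (i + 1 + j) := by
    intro j
    induction j with
    | zero => exact le_rfl
    | succ j ih =>
      have h1 := cen_succ (i + 1 + j)
      have h2 := sc_pos (i + 1 + j)
      have h3 := sc_succ_le (i + 1 + j)
      have h4 : i + 1 + (j + 1) = i + 1 + j + 1 := by ring
      rw [h4]
      linarith [sc_pos (i + 1 + j + 1)]
  obtain ⟨k, rfl⟩ := Nat.exists_eq_add_of_le (Nat.succ_le_of_lt h)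
  have h1 := key k
  have h2 := cen_succ i
  have h3 := sc_pos i
  have h4 := sc_succ_le i
  have h5 := sc_pos (i + 1)
  rw [Nat.succ_eq_add_one]
  linarith

/-- right ends of the links of the second kind -/
theorem rho_right (i : ℕ) : cen i + 11 / 4 * sc i ≤ cen (i + 1) - 3 / 8 * sc (i + 1) := by
  have h1 := cen_succ i
  have h2 := sc_le i
  linarith

theorem cen_add_mono {r : ℝ} (hr : r ≤ 21 / 8) {i j : ℕ} (h : i ≤ j) (hr0 : 0 ≤ r) :
    cen i + r * sc i ≤ cen j + r * sc j := by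
  obtain ⟨k, rfl⟩ := Nat.exists_eq_add_of_le h
  clear h
  induction k with
  | zero => exact le_rfl
  | succ k ih =>
    have h1 := cen_succ (i + k)
    have h2 := sc_pos (i + k)
    have h3 := sc_pos (i + k + 1)
    have h4 : i + (k + 1) = i + k + 1 := by ring
    rw [h4]
    nlinarith [mul_le_mul_of_nonneg_right hr h2.le, mul_nonneg hr0 h3.le]

/-- links of the second kind are disjoint -/
theorem rho_lt {i j : ℕ} (h : i < j) : cen i + 11 / 4 * sc i < cen j + 3 / 4 * sc j := by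
  have h1 := rho_right i
  have h2 := cen_add_mono (r := 3 / 4) (by norm_num) (Nat.succ_le_of_lt h) (by norm_num)
  rw [Nat.succ_eq_add_one] at h2
  have h3 := sc_pos (i + 1)
  linarith

/-! ### the families -/

/-- the similarities -/
def sg (i : ℕ) : E 4 ≃ₜ E 4 := simH (sc i) (sc_pos i) (cen i)

theorem sg_apply (i : ℕ) (x : E 4) : sg i x = cen i • e1 + sc i • x := simH_apply _ _ _ _

theorem sg_dff (i : ℕ) : Dff (sg i) := simH_dff _ _ _

theorem sg_succ (i : ℕ) (x : E 4) :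
    sg (i + 1) x = sg i (simH (rt i) (rt_pos i) ((3 + rt i) * (7 / 8)) x) := by
  rw [sg_apply, sg_apply, simH_apply, smul_add, smul_smul, smul_smul, sc_rt, ← add_assoc,
    ← add_smul, cen_rt]

theorem sg_succ_symm (i : ℕ) (x : E 4) :
    (sg (i + 1)).symm x = (simH (rt i) (rt_pos i) ((3 + rt i) * (7 / 8))).symm ((sg i).symm x) := by
  rw [Homeomorph.symm_apply_eq, sg_succ, Homeomorph.apply_symm_apply, Homeomorph.apply_symm_apply]

/-- supports of the first kind -/
def Kt (i : ℕ) : Set (E 4) := closedBall (cen i • e1) (sc i)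

/-- supports of the second kind -/
def Kr (i : ℕ) : Set (E 4) := closedBall ((cen i + 7 / 4 * sc i) • e1) (sc i)

theorem Kt_bd {i : ℕ} {x : E 4} (h : x ∈ Kt i) : cen i - sc i ≤ x 0 ∧ x 0 ≤ cen i + sc i := by
  have h1 := (abs0_sub x (cen i)).trans (mem_closedBall_iff_norm.1 h)
  rw [abs_le] at h1
  constructor <;> linarith [h1.1, h1.2]

theorem Kr_bd {i : ℕ} {x : E 4} (h : x ∈ Kr i) :
    cen i + 3 / 4 * sc i ≤ x 0 ∧ x 0 ≤ cen i + 11 / 4 * sc i := by
  have h1 := (abs0_sub x (cen i + 7 / 4 * sc i)).trans (mem_closedBall_iff_norm.1 h)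
  rw [abs_le] at h1
  constructor <;> linarith [h1.1, h1.2]

/-- the limit point -/
def zz : E 4 := lim • e1

theorem zz_0 : zz 0 = lim := smul_e1_0 _

theorem near_zz {i : ℕ} {x : E 4} (h : ‖x - cen i • e1‖ ≤ 11 / 4 * sc i) :
    ‖x - zz‖ ≤ 11 / 4 * sc i + (lim - cen i) := by
  have h1 := norm_add_le (x - cen i • e1) (cen i • e1 - zz)
  rw [sub_add_sub_cancel, zz, ← sub_smul, norm_smul_e1, abs_sub_comm,
    abs_of_pos (sub_pos.2 (cen_lt_lim i))] at h1
  rw [zz]
  linarith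

theorem Kt_near {i : ℕ} {x : E 4} (h : x ∈ Kt i) : ‖x - cen i • e1‖ ≤ 11 / 4 * sc i := by
  have := mem_closedBall_iff_norm.1 h
  linarith [sc_pos i]

theorem Kr_near {i : ℕ} {x : E 4} (h : x ∈ Kr i) : ‖x - cen i • e1‖ ≤ 11 / 4 * sc i := by
  have h0 := mem_closedBall_iff_norm.1 h
  have h1 := norm_add_le (x - (cen i + 7 / 4 * sc i) • e1) ((cen i + 7 / 4 * sc i) • e1 - cen i • e1)
  rw [sub_add_sub_cancel, ← sub_smul, norm_smul_e1, add_sub_cancel_left,
    abs_of_pos (by have := sc_pos i; positivity)] at h1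
  linarith

theorem sc_tendsto : Tendsto sc atTop (𝓝 0) := sc_summable.tendsto_atTop_zero

theorem conv_aux {K : ℕ → Set (E 4)}
    (hK : ∀ i, ∀ x ∈ K i, ‖x - cen i • e1‖ ≤ 11 / 4 * sc i) (ε : ℝ) (hε : 0 < ε) :
    ∃ m : ℕ, ∀ i, m ≤ i → K i ⊆ ball zz ε := by
  have h1 : Tendsto (fun i => 11 / 4 * sc i + (lim - cen i)) atTop (𝓝 0) := by
    have h2 := (sc_tendsto.const_mul (11 / 4)).add
      ((tendsto_const_nhds (x := lim)).sub cen_tendsto)
    simpa using h2
  obtain ⟨m, hm⟩ := Filter.eventually_atTop.1 (h1.eventually (gt_mem_nhds hε))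
  refine ⟨m, fun i hi x hx => ?_⟩
  rw [mem_ball, dist_eq_norm]
  exact (near_zz (hK i x hx)).trans_lt (hm i hi)

section

variable {γ : E 4 ≃ₜ E 4}

theorem famT (hγ : Core γ) : Fam (fun i => cj (sg i) γ) Kt zz := by
  refine ⟨fun i => isClosed_closedBall, fun i x hx => ?_, fun i j hij => ?_, fun i hi => ?_,
    conv_aux fun i x hx => Kt_near hx⟩
  · apply simH_out _ _ _ hγ.out
    rw [Kt, mem_closedBall_iff_norm, not_le] at hx
    exact hx.le
  · rw [disjoint_left]
    intro x hx hx'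
    have h1 := Kt_bd hx
    have h2 := Kt_bd hx'
    rcases lt_or_gt_of_ne hij with h | h
    · linarith [tau_lt h, h1.2, h2.1]
    · linarith [tau_lt h, h1.1, h2.2]
  · have h1 := Kt_bd hi
    rw [zz_0] at h1
    have h2 := tau_lt (Nat.lt_succ_self i)
    have h3 := cen_lt_lim (i + 1)
    have h4 := sc_pos (i + 1)
    rw [Nat.succ_eq_add_one] at h2
    linarith [h1.2]

theorem famR (hγ : Core γ) :
    Fam (fun i => cj (sg i) (cj (rhoH (rt i) (rt_pos i) (rt_le i)) γ)) Kr zz := by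
  refine ⟨fun i => isClosed_closedBall, fun i x hx => ?_, fun i j hij => ?_, fun i hi => ?_,
    conv_aux fun i x hx => Kr_near hx⟩
  · show cj (sg i) (cj (rhoH (rt i) (rt_pos i) (rt_le i)) γ) x = x
    rw [cj_apply, rhoH_out _ _ _ hγ.out, Homeomorph.apply_symm_apply]
    rw [Kr, mem_closedBall_iff_norm, not_le] at hx
    have h1 : (sg i).symm x - (7 / 4 : ℝ) • e1 =
        (sc i)⁻¹ • (x - (cen i + 7 / 4 * sc i) • e1) := by
      have h2 : (sg i).symm x = (sc i)⁻¹ • (x - cen i • e1) := simH_symm _ _ _ _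
      rw [h2, smul_sub, smul_sub, smul_smul, smul_smul]
      have h3 : (sc i)⁻¹ * (cen i + 7 / 4 * sc i) = (sc i)⁻¹ * cen i + 7 / 4 := by
        have := (sc_pos i).ne'
        field_simp
      rw [h3, add_smul]
      abel
    rw [h1, norm_smul, norm_inv, Real.norm_of_nonneg (sc_pos i).le, lt_inv_mul_iff₀ (sc_pos i),
      mul_one]
    exact hx
  · rw [disjoint_left]
    intro x hx hx'
    have h1 := Kr_bd hx
    have h2 := Kr_bd hx'
    rcases lt_or_gt_of_ne hij with h | h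
    · linarith [rho_lt h, h1.2, h2.1]
    · linarith [rho_lt h, h1.1, h2.2]
  · have h1 := Kr_bd hi
    rw [zz_0] at h1
    have h2 := rho_right i
    have h3 := cen_lt_lim (i + 1)
    have h4 := sc_pos (i + 1)
    linarith [h1.2]

/-- the swindle -/
def sw (hγ : Core γ) : E 4 ≃ₜ E 4 := (prH (famR hγ)).symm.trans (prH (famT hγ))

theorem sw_apply (hγ : Core γ) (x : E 4) : sw hγ x = prH (famT hγ) ((prH (famR hγ)).symm x) := rfl

/-- the swindle in the slabs -/
theorem sw_slab (hγ : Core γ) {i : ℕ} {x : E 4} (h1 : cen i - 1 / 4 * sc i < x 0)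
    (h2 : x 0 < cen (i + 1) + 1 / 4 * sc (i + 1)) :
    sw hγ x = cj (sg i) (pat (rt i) (rt_pos i) (rt_le i) γ) x := by
  have hxr : ∀ j, j ≠ i → x ∉ Kr j := by
    intro j hj hxj
    have h3 := Kr_bd hxj
    rcases lt_or_gt_of_ne hj with h | h
    · obtain ⟨k, rfl⟩ : ∃ k, i = k + 1 := ⟨i - 1, by omega⟩
      have h4 := rho_right k
      have h5 : cen j + 11 / 4 * sc j ≤ cen k + 11 / 4 * sc k := by
        rcases Nat.lt_or_ge j k with h6 | h6
        · linarith [rho_lt h6, sc_pos k]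
        · have : j = k := by omega
          rw [this]
      have := sc_pos (k + 1)
      linarith [h3.2]
    · have h4 := cen_add_mono (r := 3 / 4) (by norm_num) (Nat.succ_le_of_lt h) (by norm_num)
      rw [Nat.succ_eq_add_one] at h4
      have := sc_pos (i + 1)
      linarith [h3.1]
  set y := (prH (famR hγ)).symm x with hy
  have hy1 : y = (cj (sg i) (cj (rhoH (rt i) (rt_pos i) (rt_le i)) γ)).symm x :=
    prH_symm_one (famR hγ) hxr
  have hyb : cen i - 1 / 4 * sc i < y 0 ∧ y 0 < cen (i + 1) + 1 / 4 * sc (i + 1) := by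
    by_cases hxi : x ∈ Kr i
    · have h3 : y ∈ Kr i := by
        rw [hy1]
        exact (famR hγ).symm.mem hxi
      have h4 := Kr_bd h3
      have h5 := rho_right i
      have h6 := sc_pos i
      have h7 := sc_pos (i + 1)
      constructor
      · linarith [h4.1]
      · linarith [h4.2]
    · have h3 : y = x := by
        rw [hy1]
        exact (famR hγ).symm.out i x hxi
      rw [h3]
      exact ⟨h1, h2⟩
  have hyt : ∀ j, j ≠ i → j ≠ i + 1 → y ∉ Kt j := by
    intro j hj hj' hyj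
    have h3 := Kt_bd hyj
    rcases lt_or_gt_of_ne hj with h | h
    · have h4 := tau_lt h
      have := sc_pos i
      linarith [h3.2, hyb.1]
    · have h5 : i + 1 < j := by omega
      have h4 := tau_lt h5
      have := sc_pos (i + 1)
      linarith [h3.1, hyb.2]
  rw [sw_apply, ← hy, prH_two (famT hγ) (show i ≠ i + 1 by omega) hyt, hy1]
  show cj (sg i) γ (cj (sg (i + 1)) γ ((cj (sg i) (cj (rhoH _ _ _) γ)).symm x)) = _
  rw [cj_symm]
  show sg i (γ ((sg i).symm (sg (i + 1) (γ ((sg (i + 1)).symm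
    (sg i ((cj (rhoH _ _ _) γ).symm ((sg i).symm x)))))))) = _
  rw [sg_succ_symm, (sg i).symm_apply_apply, sg_succ, (sg i).symm_apply_apply]
  rfl

/-- the swindle on the left -/
theorem sw_left (hγ : Core γ) {x : E 4} (h : x 0 < 3 / 4) : sw hγ x = γ x := by
  have hxr : ∀ j, x ∉ Kr j := by
    intro j hxj
    have h3 := Kr_bd hxj
    have h4 := cen_add_mono (r := 3 / 4) (by norm_num) (Nat.zero_le j) (by norm_num)
    rw [cen_zero, sc_zero] at h4
    linarith [h3.1]
  have hxt : ∀ j, j ≠ 0 → x ∉ Kt j := by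
    intro j hj hxj
    have h3 := Kt_bd hxj
    have h4 := tau_lt (Nat.pos_of_ne_zero hj)
    rw [cen_zero, sc_zero] at h4
    linarith [h3.1]
  rw [sw_apply, prH_symm_out _ hxr, prH_one _ hxt]
  show sg 0 (γ ((sg 0).symm x)) = γ x
  have h0 : ∀ y, sg 0 y = y := fun y => by
    rw [sg_apply, cen_zero, sc_zero, zero_smul, one_smul, zero_add]
  have h0' : (sg 0).symm x = x := by rw [Homeomorph.symm_apply_eq, h0]
  rw [h0, h0']

theorem out_right {K : ℕ → Set (E 4)} (hK : ∀ i, ∀ x ∈ K i, x 0 ≤ cen (i + 1)) {x : E 4}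
    (h : lim ≤ x 0) (i : ℕ) : x ∉ K i := fun hx => by
  linarith [hK i x hx, cen_lt_lim (i + 1)]

theorem Kt_lt {i : ℕ} {x : E 4} (h : x ∈ Kt i) : x 0 ≤ cen (i + 1) := by
  have h1 := tau_lt (Nat.lt_succ_self i)
  rw [Nat.succ_eq_add_one] at h1
  linarith [(Kt_bd h).2, sc_pos (i + 1)]

theorem Kr_lt {i : ℕ} {x : E 4} (h : x ∈ Kr i) : x 0 ≤ cen (i + 1) := by
  linarith [(Kr_bd h).2, sc_pos (i + 1), rho_right i]

/-- the swindle on the right -/
theorem sw_right (hγ : Core γ) {x : E 4} (h : lim ≤ x 0) : sw hγ x = x := by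
  have hr : ∀ i, x ∉ Kr i := out_right (fun i x hx => Kr_lt hx) h
  have ht : ∀ i, x ∉ Kt i := out_right (fun i x hx => Kt_lt hx) h
  rw [sw_apply, prH_symm_out _ hr, prH_out _ ht]

theorem Fam.ev {θ : ℕ → E 4 ≃ₜ E 4} {K : ℕ → Set (E 4)} {z : E 4} (h : Fam θ K z) {x : E 4}
    (hx : x ≠ z) (hn : ∀ i, x ∉ K i) : ∀ᶠ y in 𝓝 x, ∀ i, y ∉ K i := by
  obtain ⟨i, hi⟩ := h.near hx
  filter_upwards [hi, (h.closed i).isOpen_compl.mem_nhds (hn i)] with y hy1 hy2 j
  by_cases hj : j = i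
  · rw [hj]; exact hy2
  · exact hy1 j hj

theorem sw_right_ev (hγ : Core γ) {x : E 4} (h : lim ≤ x 0) (hx : x ≠ zz) :
    ∀ᶠ y in 𝓝 x, sw hγ y = y := by
  have hr : ∀ i, x ∉ Kr i := out_right (fun i x hx => Kr_lt hx) h
  have ht : ∀ i, x ∉ Kt i := out_right (fun i x hx => Kt_lt hx) h
  filter_upwards [(famR hγ).ev hx hr, (famT hγ).ev hx ht] with y hy1 hy2
  rw [sw_apply, prH_symm_out _ hy1, prH_out _ hy2]

theorem cont0 : Continuous fun x : E 4 => x 0 := by fun_prop

/-- the slab of a point -/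
theorem exists_slab {x : E 4} (h0 : 0 ≤ x 0) (h : x 0 < lim) :
    ∃ i, cen i ≤ x 0 ∧ x 0 < cen (i + 1) := by
  obtain ⟨m, hm⟩ := (cen_tendsto.eventually (lt_mem_nhds h)).exists
  classical
  have hex : ∃ m, x 0 < cen m := ⟨m, hm⟩
  have h1 := Nat.find_spec hex
  have h2 : Nat.find hex ≠ 0 := by
    intro hcon
    rw [hcon, cen_zero] at h1
    linarith
  obtain ⟨i, hi⟩ := Nat.exists_eq_succ_of_ne_zero h2
  refine ⟨i, ?_, ?_⟩
  · have := Nat.find_min hex (show i < Nat.find hex by omega)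
    exact not_lt.1 this
  · rw [hi] at h1
    exact h1

theorem sw_slab_ev (hγ : Core γ) {i : ℕ} {x : E 4} (h1 : cen i ≤ x 0) (h2 : x 0 < cen (i + 1)) :
    ∀ᶠ y in 𝓝 x, sw hγ y = cj (sg i) (pat (rt i) (rt_pos i) (rt_le i) γ) y := by
  have h3 : cen i - 1 / 4 * sc i < x 0 := by linarith [sc_pos i]
  have h4 : x 0 < cen (i + 1) + 1 / 4 * sc (i + 1) := by linarith [sc_pos (i + 1)]
  filter_upwards [cont0.continuousAt.eventually (lt_mem_nhds h3),
    cont0.continuousAt.eventually (gt_mem_nhds h4)] with y hy1 hy2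
  exact sw_slab hγ hy1 hy2

theorem sg_symm_0 (i : ℕ) (x : E 4) : ((sg i).symm x) 0 = (x 0 - cen i) / sc i := by
  have h2 : (sg i).symm x = (sc i)⁻¹ • (x - cen i • e1) := simH_symm _ _ _ _
  rw [h2, PiLp.smul_apply, PiLp.sub_apply, smul_e1_0, smul_eq_mul, div_eq_inv_mul]

theorem slab_bd {i : ℕ} {x : E 4} (h1 : cen i ≤ x 0) (h2 : x 0 < cen (i + 1)) :
    0 ≤ ((sg i).symm x) 0 ∧ ((sg i).symm x) 0 < (3 + rt i) * (7 / 8) := by
  rw [sg_symm_0]
  refine ⟨div_nonneg (by linarith) (sc_pos i).le, ?_⟩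
  rw [div_lt_iff₀ (sc_pos i)]
  have := cen_rt i
  nlinarith

/-- the swindle is a local diffeomorphism off two points -/
theorem sw_ld (hγ : Core γ) {x : E 4} (hx : x ≠ pa) (hz : x ≠ zz) : LD 4 (sw hγ) x := by
  rcases lt_or_ge (x 0) (3 / 4) with h | h
  · refine LD.congr (hγ.ld x hx ?_) ?_
    · rintro rfl
      rw [pb_0] at h
      norm_num at h
    · filter_upwards [cont0.continuousAt.eventually (gt_mem_nhds h)] with y hy
      exact sw_left hγ hy
  · rcases lt_or_ge (x 0) lim with h' | h'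
    · obtain ⟨i, hi1, hi2⟩ := exists_slab (by linarith) h'
      refine LD.congr (cj_ld (sg_dff i) ?_) (sw_slab_ev hγ hi1 hi2)
      obtain ⟨h3, h4⟩ := slab_bd hi1 hi2
      have h5 : 1 / 4 ≤ rt i := by
        rcases rt_cases i with h | h
        · rw [h]; norm_num
        · rw [h]
      exact pat_ld (rt i) h5 (rt_le i) (rt_pos i) hγ (by linarith) (by linarith [rt_pos i])
    · exact LD.congr (LD.id x) (sw_right_ev hγ h' hz)

end

end Pool.Agent.L0h29.BL
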