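import Pool.Agent.L0h29.BL.Swin

/-!
# Project BL: the swindle near the limit point
-/

set_option autoImplicit false

open Set Filter Topology Metric Function
open scoped Manifold ContDiff

noncomputable section

namespace Pool.Agent.L0h29.BL

open Pool.Agent.Y522 Pool.Agent.N550.KH

variable {γ : E 4 ≃ₜ E 4}

theorem sw_zz (hγ : Core γ) : sw hγ zz = zz := sw_right hγ (by rw [zz_0])

/-- conjugation with similarities keeps the local Lipschitz constants -/
theorem sg_lb {i : ℕ} {P : E 4 ≃ₜ E 4} {C : ℝ} {x : E 4} (h : LB C P ((sg i).symm x)) :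
    LB C (cj (sg i) P) x := by
  obtain ⟨U, hU, hUC⟩ := h
  have hn : ∀ y y' : E 4, ‖sg i y - sg i y'‖ = sc i * ‖y - y'‖ := by
    intro y y'
    rw [sg_apply, sg_apply, add_sub_add_left_eq_sub, ← smul_sub, norm_smul,
      Real.norm_of_nonneg (sc_pos i).le]
  refine ⟨(sg i).symm ⁻¹' U, (sg i).symm.continuous.continuousAt hU, fun y hy y' hy' => ?_⟩
  obtain ⟨h1, h2⟩ := hUC _ hy _ hy'
  have h3 : ‖y - y'‖ = sc i * ‖(sg i).symm y - (sg i).symm y'‖ := by
    rw [← hn, Homeomorph.apply_symm_apply, Homeomorph.apply_symm_apply]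
  rw [cj_apply, cj_apply, hn, h3]
  have h4 := sc_pos i
  constructor <;> nlinarith

/-- bi-Lipschitz constants of the swindle -/
theorem sw_lb (hγ : Core γ) : ∃ C : ℝ, 1 ≤ C ∧ ∀ x : E 4, 0 ≤ x 0 → x ≠ zz → LB C (sw hγ) x := by
  obtain ⟨C₁, h1, h1'⟩ := pat_unif 1 (by norm_num) le_rfl one_pos hγ
  obtain ⟨C₂, h2, h2'⟩ := pat_unif (1 / 4) le_rfl (by norm_num) (by norm_num) hγ
  have key : ∀ (l : ℝ) (h0 : 0 < l) (h1 : l ≤ 1), (l = 1 ∨ l = 1 / 4) → ∀ x : E 4,
      -(1 / 4) ≤ x 0 → x 0 ≤ (3 + l) * (7 / 8) + l * (1 / 4) →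
      LB (max C₁ C₂) (pat l h0 h1 γ) x := by
    rintro l h0 h1 (rfl | rfl) x hx1 hx2
    · exact (h1' x hx1 hx2).mono (le_max_left _ _)
    · exact (h2' x hx1 hx2).mono (le_max_right _ _)
  have hC : 1 ≤ max C₁ C₂ := h1.trans (le_max_left _ _)
  refine ⟨max C₁ C₂, hC, fun x hx hz => ?_⟩
  rcases lt_or_ge (x 0) lim with h' | h'
  · obtain ⟨i, hi1, hi2⟩ := exists_slab hx h'
    refine LB.congr (sg_lb ?_) (sw_slab_ev hγ hi1 hi2)
    obtain ⟨h3, h4⟩ := slab_bd hi1 hi2
    exact key _ _ _ (rt_cases i) _ (by linarith) (by linarith [rt_pos i])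
  · exact (LB.congr (LB.id x) (sw_right_ev hγ h' hz)).mono hC

theorem lim_pos : 0 < lim := by
  have := cen_lt_lim 0
  rwa [cen_zero] at this

theorem ball_zz {x : E 4} (h : x ∈ ball zz lim) : 0 ≤ x 0 := by
  rw [mem_ball, dist_eq_norm] at h
  have h1 := abs0_sub x lim
  have h2 : ‖x - lim • e1‖ < lim := h
  have h3 := abs_le.1 (h1.trans h2.le)
  linarith [h3.1]

/-- The swindle is bi-Lipschitz near the limit point. -/
theorem sw_bilip (hγ : Core γ) : ∃ (C r : ℝ), 0 < r ∧ ∀ x ∈ ball zz r, ∀ y ∈ ball zz r,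
    ‖sw hγ x - sw hγ y‖ ≤ C * ‖x - y‖ ∧ ‖x - y‖ ≤ C * ‖sw hγ x - sw hγ y‖ := by
  obtain ⟨C, hC1, hC⟩ := sw_lb hγ
  have hinv : ∀ y : E 4, y ≠ zz → 0 ≤ ((sw hγ).symm y) 0 → LL C (sw hγ).symm y := by
    intro y hy h0
    have h1 : (sw hγ).symm y ≠ zz := by
      intro hcon
      rw [Homeomorph.symm_apply_eq, sw_zz] at hcon
      exact hy hcon
    obtain ⟨U, hU, hUC⟩ := hC _ h0 h1
    refine ⟨(sw hγ).symm ⁻¹' U, (sw hγ).symm.continuous.continuousAt hU, fun w hw w' hw' => ?_⟩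
    have h2 := (hUC _ hw _ hw').2
    rwa [Homeomorph.apply_symm_apply, Homeomorph.apply_symm_apply] at h2
  -- a small ball for the inverse
  have hs : Tendsto (sw hγ).symm (𝓝 zz) (𝓝 zz) := by
    have := (sw hγ).symm.continuous.tendsto zz
    have h1 : (sw hγ).symm zz = zz := by rw [Homeomorph.symm_apply_eq, sw_zz]
    rwa [h1] at this
  obtain ⟨r₁, hr₁, hr₁'⟩ := Metric.mem_nhds_iff.1 (hs (ball_mem_nhds zz lim_pos))
  have ht : Tendsto (sw hγ) (𝓝 zz) (𝓝 zz) := by
    have := (sw hγ).continuous.tendsto zz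
    rwa [sw_zz] at this
  obtain ⟨r₂, hr₂, hr₂'⟩ := Metric.mem_nhds_iff.1 (ht (ball_mem_nhds zz hr₁))
  have hA := LL.on_ball (f := sw hγ) (sw hγ).continuous zz lim
    (fun x hx hxz => (hC x (ball_zz hx) hxz).ll)
  have hB := LL.on_ball (f := (sw hγ).symm) (sw hγ).symm.continuous zz r₁
    (fun x hx hxz => hinv x hxz (ball_zz (hr₁' hx)))
  refine ⟨C, min r₂ lim, lt_min hr₂ lim_pos, fun x hx y hy => ⟨?_, ?_⟩⟩
  · exact hA x (ball_subset_ball (min_le_right _ _) hx) y (ball_subset_ball (min_le_right _ _) hy)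
  · have h1 := hB _ (hr₂' (ball_subset_ball (min_le_left _ _) hx)) _
      (hr₂' (ball_subset_ball (min_le_left _ _) hy))
    rwa [Homeomorph.symm_apply_apply, Homeomorph.symm_apply_apply] at h1

/-- the displacement in the slabs -/
theorem sw_disp (hγ : Core γ) {i : ℕ} {x : E 4} (h1 : cen i ≤ x 0) (h2 : x 0 < cen (i + 1)) :
    sw hγ x = x ∨ (‖sw hγ x - x‖ ≤ 10 * sc i ∧ x 0 ≤ cen (i + 1) + sc (i + 1)) := by
  have hxs := (sw_slab_ev hγ h1 h2).self_of_nhds
  by_cases hx : 5 ≤ ‖(sg i).symm x‖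
  · left
    rw [hxs, cj_apply, pat_out _ _ _ hγ hx, Homeomorph.apply_symm_apply]
  · right
    refine ⟨?_, by linarith [sc_pos (i + 1)]⟩
    have hx' := not_le.1 hx
    have h3 : ‖pat (rt i) (rt_pos i) (rt_le i) γ ((sg i).symm x)‖ < 5 := by
      by_contra hcon
      have h4 := pat_out (rt i) (rt_le i) (rt_pos i) hγ (not_lt.1 hcon)
      have h5 := (pat (rt i) (rt_pos i) (rt_le i) γ).injective h4
      rw [h5] at hcon
      exact hcon hx'
    have h4 : sw hγ x - x = sc i • (pat (rt i) (rt_pos i) (rt_le i) γ ((sg i).symm x) -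
        (sg i).symm x) := by
      have h6 : sw hγ x - x = sg i (pat (rt i) (rt_pos i) (rt_le i) γ ((sg i).symm x)) -
          sg i ((sg i).symm x) := by
        rw [hxs, cj_apply, (sg i).apply_symm_apply x]
      rw [h6, sg_apply, sg_apply, add_sub_add_left_eq_sub, ← smul_sub]
    rw [h4, norm_smul, Real.norm_of_nonneg (sc_pos i).le]
    have h5 := norm_sub_le (pat (rt i) (rt_pos i) (rt_le i) γ ((sg i).symm x)) ((sg i).symm x)
    nlinarith [sc_pos i]

/-- The swindle is differentiable at the limit point, with derivative the identity. -/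
theorem sw_deriv (hγ : Core γ) :
    HasFDerivAt (sw hγ) (ContinuousLinearMap.id ℝ (E 4)) zz := by
  rw [hasFDerivAt_iff_isLittleO, Asymptotics.isLittleO_iff]
  intro ε hε
  obtain ⟨m, hm⟩ := exists_nat_gt (320 / ε)
  have h1 : ∀ᶠ x in 𝓝 zz, cen m < x 0 := by
    apply cont0.continuousAt.eventually
    apply lt_mem_nhds
    show cen m < zz 0
    rw [zz_0]; exact cen_lt_lim m
  have h0 : ∀ᶠ x in 𝓝 zz, 0 ≤ x 0 := by
    filter_upwards [ball_mem_nhds zz lim_pos] with x hx
    exact ball_zz hx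
  filter_upwards [h1, h0] with x hx hx0
  rw [sw_zz, ContinuousLinearMap.id_apply, sub_sub_sub_cancel_right]
  rcases lt_or_ge (x 0) lim with h' | h'
  · obtain ⟨i, hi1, hi2⟩ := exists_slab hx0 h'
    rcases sw_disp hγ hi1 hi2 with h2 | ⟨h2, h3⟩
    · rw [h2, sub_self, norm_zero]
      positivity
    · have hmi : m ≤ i := by
        by_contra hcon
        have := cen_mono (show i + 1 ≤ m by omega)
        linarith
      have h4 : lim - cen (i + 1) - sc (i + 1) ≤ ‖x - zz‖ := by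
        have h5 := abs0_sub x lim
        rw [abs_sub_comm] at h5
        have h6 := (le_abs_self _).trans h5
        have h7 : ‖x - lim • e1‖ = ‖x - zz‖ := rfl
        linarith
      have h5 := sc_gap i
      have h6 : 320 / ((i : ℝ) + 1) ≤ ε := by
        have h7 : (m : ℝ) ≤ i := by exact_mod_cast hmi
        rw [div_le_iff₀ (by positivity)]
        have h8 : 320 < ε * m := by
          rw [div_lt_iff₀ hε] at hm
          linarith
        nlinarith
      have h7 : 0 ≤ lim - cen (i + 1) - sc (i + 1) := by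
        have := gap i
        have h8 : (0 : ℝ) ≤ 1 / (4 * ((i : ℝ) + 2)) := by positivity
        linarith
      calc ‖sw hγ x - x‖ ≤ 10 * sc i := h2
        _ ≤ 10 * (32 / ((i : ℝ) + 1) * (lim - cen (i + 1) - sc (i + 1))) := by linarith
        _ = (320 / ((i : ℝ) + 1)) * (lim - cen (i + 1) - sc (i + 1)) := by ring
        _ ≤ ε * (lim - cen (i + 1) - sc (i + 1)) := mul_le_mul_of_nonneg_right h6 h7
        _ ≤ ε * ‖x - zz‖ := mul_le_mul_of_nonneg_left h4 hε.le
  · rw [sw_right hγ h', sub_self, norm_zero]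
    positivity

/-- compact support -/
theorem sw_out (hγ : Core γ) {x : E 4} (hx : lim + 20 ≤ ‖x‖) : sw hγ x = x := by
  have hK : ∀ (i : ℕ) (x : E 4), ‖x - cen i • e1‖ ≤ 11 / 4 * sc i → ‖x‖ < lim + 20 := by
    intro i x h
    have h1 := norm_add_le (x - cen i • e1) (cen i • e1)
    rw [sub_add_cancel, norm_smul_e1] at h1
    have h2 : 0 ≤ cen i := by
      have := cen_mono (Nat.zero_le i)
      rwa [cen_zero] at this
    rw [abs_of_nonneg h2] at h1
    linarith [cen_lt_lim i, sc_le_one i]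
  have hr : ∀ i, x ∉ Kr i := fun i hi => absurd (hK i x (Kr_near hi)) (not_lt.2 hx)
  have ht : ∀ i, x ∉ Kt i := fun i hi => absurd (hK i x (Kt_near hi)) (not_lt.2 hx)
  rw [sw_apply, prH_symm_out _ hr, prH_out _ ht]

/-- the germ at the left point -/
theorem sw_pa (hγ : Core γ) : ∀ᶠ x in 𝓝 pa, sw hγ x = γ x := by
  have h : pa 0 < 3 / 4 := by rw [pa_0]; norm_num
  filter_upwards [cont0.continuousAt.eventually (gt_mem_nhds h)] with y hy
  exact sw_left hγ hy

theorem zz_ne_pa : zz ≠ pa := by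
  intro h
  have h1 := zz_0
  rw [h, pa_0] at h1
  linarith [lim_pos]

end Pool.Agent.L0h29.BL
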