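import Pool.Agent.L0h29.BL.Hom

/-!
# Project BL: the local theorem
-/

set_option autoImplicit false

open Set Filter Topology Metric Function
open scoped Manifold ContDiff

noncomputable section

namespace Pool.Agent.L0h29.BL

open Pool.Agent.Y522 Pool.Agent.N550.KH Pool.Agent.L0h29.CS.Sqz Pool.Agent.N550.SH.Moeb
  Pool.Agent.N550.KH.End

theorem ev_not_mem {L : Set (E 4)} (hL : IsCompact L) {x : E 4} (h : x ∉ L) :
    ∀ᶠ y in 𝓝 x, y ∉ L := hL.isClosed.isOpen_compl.mem_nhds h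

/-- first step -/
theorem lem_a (F : E 4 ≃ₜ E 4) (b : E 4) (hb : b ≠ 0) (h0 : F 0 = 0) (R : ℝ)
    (hout : ∀ x, R ≤ ‖x‖ → F x = x) (hld : ∀ x, x ≠ 0 → x ≠ b → LD 4 F x) :
    ∃ (H : E 4 ≃ₜ E 4) (z : E 4) (R' : ℝ), z ≠ 0 ∧ H 0 = 0 ∧ (∀ᶠ x in 𝓝 (0 : E 4), H x = F x) ∧
      (∀ x, R' ≤ ‖x‖ → H x = x) ∧ (∀ x, x ≠ 0 → x ≠ z → LD 4 H x) ∧ Nice H z := by
  have hc : F b ≠ 0 := by
    intro hcon
    rw [← h0] at hcon
    exact hb (F.injective hcon)
  obtain ⟨κ, hκ, hκb, L, hL, hLU, hLo⟩ := mv (U := {(0 : E 4)}ᶜ) isOpen_compl_singleton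
    (compl_pre 0) hc hb
  have h0L : (0 : E 4) ∉ L := fun hcon => hLU hcon rfl
  obtain ⟨RL, hRL, hRL'⟩ := exists_radius hL
  have hκ0 : κ 0 = 0 := hLo 0 h0L
  have e1' : (F.trans κ) 0 = 0 := by rw [Homeomorph.trans_apply, h0, hκ0]
  have e2' : (F.trans κ) b = b := by rw [Homeomorph.trans_apply, hκb]
  have e3' : ∀ x, max R RL ≤ ‖x‖ → (F.trans κ) x = x := by
    intro x hx
    rw [Homeomorph.trans_apply, hout x ((le_max_left _ _).trans hx)]
    apply hLo
    intro hcon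
    exact absurd (hRL' x hcon) (not_lt.2 ((le_max_right _ _).trans hx))
  have e4' : ∀ x, x ≠ 0 → x ≠ b → LD 4 (F.trans κ) x := fun x h1 h2 =>
    LD.comp_fun (g := κ) (f := F) (hκ.1 _) (hld x h1 h2)
  obtain ⟨K, hK, hK0, hγ⟩ := normal (F.trans κ) b hb e1' e2' _ e3' e4'
  obtain ⟨R₁, hR₁, hR₁'⟩ := exists_radius
    ((isCompact_closedBall (0 : E 4) (lim + 20)).image K.symm.continuous)
  have hz : K.symm zz ≠ 0 := by
    intro hcon
    rw [Homeomorph.symm_apply_eq, hK0] at hcon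
    exact zz_ne_pa hcon
  have hap : ∀ x, cj K.symm (sw hγ) x = K.symm (sw hγ (K x)) := fun x => rfl
  have hev : ∀ᶠ x in 𝓝 (0 : E 4), cj K.symm (sw hγ) x = F x := by
    have h1 : Tendsto K (𝓝 0) (𝓝 pa) := by
      rw [← hK0]
      exact K.continuous.tendsto 0
    have h2 : Tendsto F (𝓝 0) (𝓝 0) := by
      have := F.continuous.tendsto 0
      rwa [h0] at this
    filter_upwards [h1.eventually (sw_pa hγ), h2.eventually (ev_not_mem hL h0L)] with x hx hx'
    rw [hap, hx, cj_apply, Homeomorph.symm_apply_apply, Homeomorph.symm_apply_apply,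
      Homeomorph.trans_apply, hLo _ hx']
  refine ⟨cj K.symm (sw hγ), K.symm zz, R₁, hz, ?_, hev, fun x hx => ?_, fun x h1 h2 => ?_, ?_⟩
  · rw [hev.self_of_nhds, h0]
  · rw [hap, sw_out, Homeomorph.symm_apply_apply]
    by_contra hcon
    rw [not_le] at hcon
    have h1 := hR₁' x ⟨K x, by rw [mem_closedBall_zero_iff]; exact hcon.le,
      K.symm_apply_apply x⟩
    linarith
  · apply cj_ld hK.symm
    rw [Homeomorph.symm_symm]
    apply sw_ld
    · intro hcon
      rw [← hK0] at hcon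
      exact h1 (K.injective hcon)
    · intro hcon
      exact h2 (by rw [← hcon, Homeomorph.symm_apply_apply])
  · have h1 : Nice K (K.symm zz) := nice_of_ld (hK.1 _)
    have h2 : Nice (sw hγ) (K (K.symm zz)) := by
      rw [Homeomorph.apply_symm_apply]
      exact sw_nice hγ
    have h3 : Nice K.symm (sw hγ (K (K.symm zz))) := nice_of_ld (hK.2 _)
    exact Nice.comp (g := K.symm) (f := fun x => sw hγ (K x)) h3
      (Nice.comp (g := sw hγ) (f := K) h2 h1)

theorem iv_far {P : E 4 → Prop} (h : ∀ᶠ x in 𝓝 (0 : E 4), P x) :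
    ∃ R : ℝ, 0 < R ∧ ∀ x, R ≤ ‖x‖ → P (Iv x) := by
  obtain ⟨r, hr, hrP⟩ := Metric.eventually_nhds_iff_ball.1 h
  refine ⟨2 * r⁻¹, by positivity, fun x hx => hrP _ ?_⟩
  rw [mem_ball_zero_iff, norm_Iv]
  have h1 : 0 < r⁻¹ := by positivity
  calc ‖x‖⁻¹ ≤ (2 * r⁻¹)⁻¹ := by gcongr
    _ = r / 2 := by rw [mul_inv, inv_inv]; ring
    _ < r := by linarith

theorem iv_near {P : E 4 → Prop} {R : ℝ} (h : ∀ x, R ≤ ‖x‖ → P x) :
    ∀ᶠ x in 𝓝 (0 : E 4), x ≠ 0 → P (Iv x) := by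
  have hb : ball (0 : E 4) ((|R| + 1)⁻¹) ∈ 𝓝 (0 : E 4) := ball_mem_nhds _ (by positivity)
  filter_upwards [hb] with x hx hx0
  apply h
  rw [mem_ball_zero_iff] at hx
  rw [norm_Iv]
  have h0 : 0 < ‖x‖ := norm_pos_iff.2 hx0
  have h1 : |R| + 1 < ‖x‖⁻¹ := by
    rw [lt_inv_comm₀ (by positivity) h0]
    exact hx
  linarith [le_abs_self R]

/-- second step -/
theorem lem_b (F : E 4 ≃ₜ E 4) (u : E 4) (hu : u ≠ 0) (hid : ∀ᶠ x in 𝓝 (0 : E 4), F x = x)
    (hld : ∀ x, x ≠ u → LD 4 F x) :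
    ∃ (H : E 4 ≃ₜ E 4) (z : E 4) (R : ℝ), (∀ x, R ≤ ‖x‖ → H x = F x) ∧
      (∀ x, x ≠ z → LD 4 H x) ∧ Nice H z := by
  have h0 : F 0 = 0 := hid.self_of_nhds
  have hap : ∀ x, conjH F h0 x = Iv (F (Iv x)) := fun x => rfl
  have a1 : conjH F h0 0 = 0 := by rw [hap, Iv_zero, h0, Iv_zero]
  obtain ⟨R, hR, hR'⟩ := iv_far hid
  have a2 : ∀ x, R ≤ ‖x‖ → conjH F h0 x = x := fun x hx => by rw [hap, hR' x hx, Iv_Iv']
  have a3 : ∀ x, x ≠ 0 → x ≠ Iv u → LD 4 (conjH F h0) x := by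
    intro x hx hxu
    have h1 : Iv x ≠ u := by
      intro hcon
      exact hxu (by rw [← hcon, Iv_Iv'])
    have h2 : F (Iv x) ≠ 0 := by
      intro hcon
      rw [← h0] at hcon
      exact Iv_ne hx (F.injective hcon)
    exact LD.comp_fun (g := Iv) (f := fun x => F (Iv x)) (LD_Iv h2)
      (LD.comp_fun (g := F) (f := Iv) (hld _ h1) (LD_Iv hx))
  obtain ⟨H, z, R', hz, hH0, hHF, hHo, hHd, hHz⟩ :=
    lem_a (conjH F h0) (Iv u) (Iv_ne hu) a1 R a2 a3
  have hap' : ∀ x, conjH H hH0 x = Iv (H (Iv x)) := fun x => rfl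
  obtain ⟨R₂, hR₂, hR₂'⟩ := iv_far hHF
  refine ⟨conjH H hH0, Iv z, R₂, fun x hx => ?_, fun x hx => ?_, ?_⟩
  · rw [hap', hR₂' x hx, hap, Iv_Iv', Iv_Iv']
  · by_cases hx0 : x = 0
    · subst hx0
      refine (LD.id (n := 4) (0 : E 4)).congr ?_
      filter_upwards [iv_near hHo] with y hy
      by_cases hy0 : y = 0
      · rw [hy0, hap', Iv_zero, hH0, Iv_zero]
      · rw [hap', hy hy0, Iv_Iv']
    · have h1 : Iv x ≠ z := by
        intro hcon
        exact hx (by rw [← hcon, Iv_Iv'])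
      have h2 : H (Iv x) ≠ 0 := by
        intro hcon
        rw [← hH0] at hcon
        exact Iv_ne hx0 (H.injective hcon)
      exact LD.comp_fun (g := Iv) (f := fun x => H (Iv x)) (LD_Iv h2)
        (LD.comp_fun (g := H) (f := Iv) (hHd _ (Iv_ne hx0) h1) (LD_Iv hx0))
  · have h1 : Nice Iv (Iv z) := nice_of_ld (LD_Iv (Iv_ne hz))
    have h2 : Nice H (Iv (Iv z)) := by
      rw [Iv_Iv']
      exact hHz
    have h3 : H (Iv (Iv z)) ≠ 0 := by
      intro hcon
      rw [← hH0, Iv_Iv'] at hcon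
      exact hz (H.injective hcon)
    exact Nice.comp (g := Iv) (f := fun x => H (Iv x)) (nice_of_ld (LD_Iv h3))
      (Nice.comp (g := H) (f := Iv) h2 h1)

/-- third step -/
theorem lem_c (F : E 4 ≃ₜ E 4) (u : E 4) (hu : u ≠ 0) (h0 : F 0 = 0)
    (hd : HasFDerivAt F (ContinuousLinearMap.id ℝ (E 4)) 0) (hld : ∀ x, x ≠ u → LD 4 F x) :
    ∃ (H : E 4 ≃ₜ E 4) (z : E 4) (R : ℝ), (∀ x, R ≤ ‖x‖ → H x = F x) ∧
      (∀ x, x ≠ z → LD 4 H x) ∧ Nice H z := by
  have h0' : F.symm 0 = 0 := by rw [Homeomorph.symm_apply_eq, h0]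
  have hFu : F u ≠ 0 := by
    intro hcon
    rw [← h0] at hcon
    exact hu (F.injective hcon)
  have hsy : ∀ y, y ≠ F u → LD 4 F.symm y := by
    intro y hy
    apply symm_ld'
    apply hld
    intro hcon
    rw [Homeomorph.symm_apply_eq] at hcon
    exact hy hcon
  have hs : ∀ᶠ y in 𝓝 (0 : E 4), ContDiffAt ℝ ∞ F.symm y := by
    filter_upwards [isOpen_compl_singleton.mem_nhds (show (0 : E 4) ∈ ({F u}ᶜ : Set (E 4)) from
      fun hcon => hFu hcon.symm)] with y hy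
    exact (hsy y hy).contDiffAt
  have hd' : HasFDerivAt F.symm (ContinuousLinearMap.id ℝ (E 4)) 0 := by
    have h1 : HasFDerivAt F ((ContinuousLinearEquiv.refl ℝ (E 4) : E 4 ≃L[ℝ] E 4) :
        E 4 →L[ℝ] E 4) (F.symm 0) := by
      rw [h0']
      exact hd
    exact HasFDerivAt.of_local_left_inverse F.symm.continuous.continuousAt h1
      (Eventually.of_forall fun y => F.apply_symm_apply y)
  obtain ⟨G, χ, hGb, hGd, hGe, hχ, -, hG⟩ := Pool.Agent.Y248.SH.germ 4 F.symm hs h0' hd' ‖u‖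
    (norm_pos_iff.2 hu)
  obtain ⟨K, hK, hKd⟩ := exists_dff ⟨hGb, hGd⟩
  have hKout : ∀ x, ‖u‖ ≤ ‖x‖ → K x = x := fun x hx => by
    rw [hK, hG, hχ x hx, zero_smul, add_zero]
  obtain ⟨H, z, R, hHo, hHd, hHz⟩ := lem_b (K.trans F) u hu (by
    filter_upwards [hGe] with x hx
    rw [Homeomorph.trans_apply, hK, hx, Homeomorph.apply_symm_apply]) (fun x hx => by
    refine LD.comp_fun (g := F) (f := K) (hld _ ?_) (hKd.1 x)
    intro hcon
    rw [← hKout u le_rfl] at hcon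
    exact hx (K.injective hcon))
  refine ⟨H, z, max R ‖u‖, fun x hx => ?_, hHd, hHz⟩
  rw [hHo x ((le_max_left _ _).trans hx), Homeomorph.trans_apply,
    hKout x ((le_max_right _ _).trans hx)]

/-- the local theorem -/
theorem local_thm (F : E 4 ≃ₜ E 4) (x₁ : E 4) (hld : ∀ x, x ≠ x₁ → LD 4 F x) :
    ∃ (H : E 4 ≃ₜ E 4) (z : E 4) (R : ℝ), (∀ x, R ≤ ‖x‖ → H x = F x) ∧
      (∀ x, x ≠ z → LD 4 H x) ∧ Nice H z := by
  set p : E 4 := x₁ + e1 with hp
  have he : (e1 : E 4) ≠ 0 := by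
    rw [← norm_pos_iff, norm_e1]
    norm_num
  have hpx : p ≠ x₁ := by
    intro hcon
    rw [hp, add_eq_left] at hcon
    exact he hcon
  obtain ⟨A, hA⟩ := (hld p hpx).exists_equiv
  let F₁ : E 4 ≃ₜ E 4 := (Homeomorph.addRight p).trans
    (F.trans ((Homeomorph.addRight (-F p)).trans A.symm.toHomeomorph))
  have hap : ∀ x, F₁ x = A.symm (F (x + p) + -F p) := fun x => rfl
  obtain ⟨H, z, R, hHo, hHd, hHz⟩ := lem_c F₁ (-e1) (neg_ne_zero.2 he)
    (by rw [hap, zero_add, add_neg_cancel, map_zero]) (by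
      have h1 : HasFDerivAt (fun x : E 4 => x + p) (ContinuousLinearMap.id ℝ (E 4)) 0 :=
        (hasFDerivAt_id (0 : E 4)).add_const p
      have h2 : HasFDerivAt F (A : E 4 →L[ℝ] E 4) ((fun x : E 4 => x + p) 0) := by
        simpa using hA
      have h3 := (h2.comp (0 : E 4) h1).add_const (-F p)
      have h4 : HasFDerivAt (fun y => A.symm y) (A.symm : E 4 →L[ℝ] E 4)
        ((fun x => (F ∘ fun x : E 4 => x + p) x + -F p) 0) := A.symm.hasFDerivAt
      have h5 := h4.comp (0 : E 4) h3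
      refine h5.congr_fderiv ?_
      ext v : 1
      simp) (fun x hx => by
      have h1 : x + p ≠ x₁ := by
        intro hcon
        apply hx
        rw [hp, add_comm x₁, ← add_assoc, add_eq_right] at hcon
        exact eq_neg_of_add_eq_zero_left hcon
      exact LD.comp_fun (g := A.symm) (f := fun x => F (x + p) + -F p) (LD_linear A.symm _)
        (LD.comp_fun (g := fun y => y + -F p) (f := fun x => F (x + p)) (LD_add_const _ _)
          (LD.comp_fun (g := F) (f := fun x => x + p) (hld _ h1) (LD_add_const _ _))))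
  let G : E 4 ≃ₜ E 4 := (Homeomorph.addRight (-p)).trans
    (H.trans (A.toHomeomorph.trans (Homeomorph.addRight (F p))))
  have hG : ∀ x, G x = A (H (x + -p)) + F p := fun x => rfl
  refine ⟨G, z + p, R + ‖p‖, fun x hx => ?_, fun x hx => ?_, ?_⟩
  · have h1 : R ≤ ‖x + -p‖ := by
      have := norm_sub_norm_le x p
      rw [← sub_eq_add_neg]
      linarith
    rw [hG, hHo _ h1, hap, ContinuousLinearEquiv.apply_symm_apply, neg_add_cancel_right,
      neg_add_cancel_right]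
  · have h1 : x + -p ≠ z := by
      intro hcon
      exact hx (by rw [← hcon, neg_add_cancel_right])
    exact LD.comp_fun (g := fun y => y + F p) (f := fun x => A (H (x + -p))) (LD_add_const _ _)
      (LD.comp_fun (g := A) (f := fun x => H (x + -p)) (LD_linear A _)
        (LD.comp_fun (g := H) (f := fun x => x + -p) (hHd _ h1) (LD_add_const _ _)))
  · have h1 : Nice (fun x : E 4 => x + -p) (z + p) := nice_of_ld (LD_add_const _ _)
    have h2 : Nice H ((fun x : E 4 => x + -p) (z + p)) := by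
      simpa using hHz
    exact Nice.comp (g := fun y => y + F p) (f := fun x => A (H (x + -p)))
      (nice_of_ld (LD_add_const _ _))
      (Nice.comp (g := A) (f := fun x => H (x + -p)) (nice_of_ld (LD_linear A _))
        (Nice.comp (g := H) (f := fun x => x + -p) h2 h1))

end Pool.Agent.L0h29.BL
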